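import Mathlib

/-! Summation by parts with the weights `n ^ (-w)` -/

set_option autoImplicit false

open Finset

namespace Pool.Agent.Q28.LS

lemma abel (F g : ℕ → ℂ) {a b : ℕ} (hab : a ≤ b) :
    ∑ n ∈ Ico a b, F n * g n = (∑ n ∈ Ico a b, F n) * g b +
      ∑ n ∈ Ico a b, (∑ m ∈ Ico a (n + 1), F m) * (g n - g (n + 1)) := by
  induction b, hab using Nat.le_induction with
  | base => simp
  | succ b hab ih =>
    rw [sum_Ico_succ_top hab, ih, sum_Ico_succ_top hab, sum_Ico_succ_top hab,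
      sum_Ico_succ_top hab]
    ring

lemma diff_cpow {w : ℂ} (hw : 0 < w.re) {n : ℕ} (hn : 1 ≤ n) :
    ‖(n : ℂ) ^ (-w) - ((n + 1 : ℕ) : ℂ) ^ (-w)‖ ≤
      ‖w‖ / w.re * ((n : ℝ) ^ (-w.re) - ((n + 1 : ℕ) : ℝ) ^ (-w.re)) := by
  have hw0 : w ≠ 0 := by rintro rfl; simp at hw
  have hn0 : (0 : ℝ) < n := by exact_mod_cast hn
  have hle : (n : ℝ) ≤ ((n + 1 : ℕ) : ℝ) := by push_cast; linarith
  have h0 : (0 : ℝ) ∉ Set.uIcc (n : ℝ) ((n + 1 : ℕ) : ℝ) := by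
    rw [Set.uIcc_of_le hle]
    intro h
    linarith [h.1]
  have h1 : ∫ x in (n : ℝ)..((n + 1 : ℕ) : ℝ), (x : ℂ) ^ (-w - 1) =
      (((n + 1 : ℕ) : ℂ) ^ (-w) - (n : ℂ) ^ (-w)) / (-w) := by
    have := integral_cpow (a := (n : ℝ)) (b := ((n + 1 : ℕ) : ℝ)) (r := -w - 1)
      (Or.inr ⟨by intro h; apply hw0; linear_combination -h, h0⟩)
    rw [this]
    push_cast
    ring_nf
  have h2 : ∫ x in (n : ℝ)..((n + 1 : ℕ) : ℝ), x ^ (-w.re - 1) =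
      (((n + 1 : ℕ) : ℝ) ^ (-w.re) - (n : ℝ) ^ (-w.re)) / (-w.re) := by
    have := integral_rpow (a := (n : ℝ)) (b := ((n + 1 : ℕ) : ℝ)) (r := -w.re - 1)
      (Or.inr ⟨by intro h; linarith, h0⟩)
    rw [this]
    ring_nf
  have h3 : ‖∫ x in (n : ℝ)..((n + 1 : ℕ) : ℝ), (x : ℂ) ^ (-w - 1)‖ ≤
      ∫ x in (n : ℝ)..((n + 1 : ℕ) : ℝ), x ^ (-w.re - 1) := by
    refine (intervalIntegral.norm_integral_le_integral_norm hle).trans (le_of_eq ?_)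
    refine intervalIntegral.integral_congr fun x hx => ?_
    rw [Set.uIcc_of_le hle] at hx
    have hx0 : 0 < x := hn0.trans_le hx.1
    rw [Complex.norm_cpow_eq_rpow_re_of_pos hx0]
    simp
  rw [h1, h2, norm_div, norm_neg, div_le_iff₀ (norm_pos_iff.2 hw0)] at h3
  rw [← norm_neg, neg_sub]
  refine h3.trans (le_of_eq ?_)
  rw [div_neg, ← neg_div, neg_sub]
  ring

theorem abel_bound (F : ℕ → ℂ) {a b : ℕ} (ha : 1 ≤ a) (hab : a ≤ b) {V : ℝ}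
    (hV : ∀ b', a ≤ b' → b' ≤ b → ‖∑ n ∈ Ico a b', F n‖ ≤ V) {w : ℂ} (hw : 0 < w.re) :
    ‖∑ n ∈ Ico a b, F n * (n : ℂ) ^ (-w)‖ ≤ V * (1 + ‖w‖ / w.re) := by
  have hV0 : 0 ≤ V := (norm_nonneg _).trans (hV a le_rfl hab)
  have ha0 : (0 : ℝ) < a := by exact_mod_cast ha
  have hb0 : (0 : ℝ) < b := by exact_mod_cast (by omega : 0 < b)
  rw [abel F (fun n => (n : ℂ) ^ (-w)) hab]
  refine (norm_add_le _ _).trans ?_
  have h1 : ‖(∑ n ∈ Ico a b, F n) * (b : ℂ) ^ (-w)‖ ≤ V * 1 := by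
    rw [norm_mul]
    refine mul_le_mul (hV b hab le_rfl) ?_ (norm_nonneg _) hV0
    rw [Complex.norm_natCast_cpow_of_pos (by omega), Complex.neg_re]
    exact Real.rpow_le_one_of_one_le_of_nonpos (by exact_mod_cast (by omega : 1 ≤ b)) (by linarith)
  have h2 : ‖∑ n ∈ Ico a b, (∑ m ∈ Ico a (n + 1), F m) *
      ((n : ℂ) ^ (-w) - ((n + 1 : ℕ) : ℂ) ^ (-w))‖ ≤ V * (‖w‖ / w.re) := by
    have h3 : ∀ n ∈ Ico a b, ‖(∑ m ∈ Ico a (n + 1), F m) *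
        ((n : ℂ) ^ (-w) - ((n + 1 : ℕ) : ℂ) ^ (-w))‖ ≤
        V * (‖w‖ / w.re) * ((n : ℝ) ^ (-w.re) - ((n + 1 : ℕ) : ℝ) ^ (-w.re)) := by
      intro n hn
      rw [mem_Ico] at hn
      rw [norm_mul, mul_assoc]
      exact mul_le_mul (hV _ (by omega) (by omega)) (diff_cpow hw (by omega)) (norm_nonneg _) hV0
    refine (norm_sum_le _ _).trans ((sum_le_sum h3).trans ?_)
    rw [← mul_sum]
    have h4 : ∑ n ∈ Ico a b, ((n : ℝ) ^ (-w.re) - ((n + 1 : ℕ) : ℝ) ^ (-w.re)) =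
        (a : ℝ) ^ (-w.re) - (b : ℝ) ^ (-w.re) := by
      have := Finset.sum_Ico_sub (fun n : ℕ => (n : ℝ) ^ (-w.re)) hab
      rw [← neg_sub ((b : ℝ) ^ (-w.re)), ← this, ← Finset.sum_neg_distrib]
      exact sum_congr rfl fun n _ => by ring
    rw [h4]
    have h5 : (a : ℝ) ^ (-w.re) - (b : ℝ) ^ (-w.re) ≤ 1 := by
      have h6 : (a : ℝ) ^ (-w.re) ≤ 1 :=
        Real.rpow_le_one_of_one_le_of_nonpos (by exact_mod_cast ha) (by linarith)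
      have h7 : 0 ≤ (b : ℝ) ^ (-w.re) := by positivity
      linarith
    have h8 : 0 ≤ V * (‖w‖ / w.re) := by positivity
    calc _ ≤ V * (‖w‖ / w.re) * 1 := mul_le_mul_of_nonneg_left h5 h8
      _ = _ := mul_one _
  linarith

end Pool.Agent.Q28.LS
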