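import Pool.Agent.Q28.LS.Dyad

/-! Large values of prime sums: one block, and all blocks -/

set_option autoImplicit false

open Finset

namespace Pool.Agent.Q28.LS

/-- the terms of the sum over primes -/
noncomputable def FF (c f : ℕ → ℂ) (n : ℕ) : ℂ := if n.Prime then c n * f n else 0

lemma FF_sum (c f : ℕ → ℂ) (a b : ℕ) :
    ∑ n ∈ Ico a b, FF c f n = ∑ p ∈ (Ico a b).filter Nat.Prime, c p * f p := by
  rw [sum_filter]
  rfl

section
variable {ι : Type} (s : Finset ι) (f : ι → ℕ → ℂ) (hf : ∀ i ∈ s, CM (f i)) (N : ℕ) (R : ℝ)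
  (hR : 0 ≤ R)
  (hLS : ∀ a : ℕ → ℂ, ∑ i ∈ s, ‖∑ n ∈ Icc 1 N, a n * f i n‖ ^ 2 ≤ R * ∑ n ∈ Icc 1 N, ‖a n‖ ^ 2)
  (c : ℕ → ℂ)
include hf hR hLS

open scoped Classical in
theorem block (j k : ℕ) (hk : 1 ≤ k) (hjk : (2 ^ (j + 1)) ^ k ≤ N) {E B : ℝ} (hE0 : 0 ≤ E)
    (hB : 0 < B) (hE : ∀ p : ℕ, 2 ^ j ≤ p → p < 2 ^ (j + 1) → p.Prime → ‖c p‖ ^ 2 ≤ E) :
    ((s.filter fun i => ∃ a b : ℕ, 2 ^ j ≤ a ∧ a ≤ b ∧ b ≤ 2 ^ (j + 1) ∧
      2 * (j + 1) * B < ‖∑ n ∈ Ico a b, FF c (f i) n‖).card : ℝ) ≤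
      (j + 1) * (R * (k.factorial * (2 ^ j * E / B ^ 2) ^ k)) := by
  set bad : ℕ → ℕ → Finset ι := fun l m => s.filter fun i =>
    B < ‖∑ p ∈ (Ico (2 ^ j + m * 2 ^ l) (2 ^ j + (m + 1) * 2 ^ l)).filter Nat.Prime, c p * f i p‖
    with hbad
  have h1 : (s.filter fun i => ∃ a b : ℕ, 2 ^ j ≤ a ∧ a ≤ b ∧ b ≤ 2 ^ (j + 1) ∧
      2 * (j + 1) * B < ‖∑ n ∈ Ico a b, FF c (f i) n‖) ⊆
      (range (j + 1)).biUnion fun l => (range (2 ^ (j - l))).biUnion fun m => bad l m := by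
    intro i hi
    rw [mem_filter] at hi
    obtain ⟨his, a, b, ha, hab, hb, hlt⟩ := hi
    by_contra hcon
    refine absurd (dyad_sub j (FF c (f i)) B ?_ a b ha hab hb) (not_le.2 hlt)
    intro l hl m hm
    by_contra hcon2
    rw [not_le, FF_sum] at hcon2
    apply hcon
    rw [mem_biUnion]
    refine ⟨l, mem_range.2 (by omega), ?_⟩
    rw [mem_biUnion]
    refine ⟨m, mem_range.2 hm, ?_⟩
    rw [hbad, mem_filter]
    exact ⟨his, hcon2⟩
  have h2 : ∀ l ∈ range (j + 1), ∀ m ∈ range (2 ^ (j - l)), ((bad l m).card : ℝ) ≤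
      R * (k.factorial * (2 ^ l * E / B ^ 2) ^ k) := by
    intro l hl m hm
    rw [mem_range] at hl hm
    have hend : 2 ^ j + (m + 1) * 2 ^ l ≤ 2 ^ (j + 1) := by
      have e : 2 ^ j = 2 ^ (j - l) * 2 ^ l := by rw [← pow_add]; congr 1; omega
      have h3 : (m + 1) * 2 ^ l ≤ 2 ^ (j - l) * 2 ^ l := Nat.mul_le_mul_right _ hm
      rw [pow_succ]
      omega
    refine count s f hf N R hR hLS _ (fun p hp => (mem_filter.1 hp).2) (2 ^ (j + 1)) k
      (fun p hp => ?_) hjk c hB ?_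
    · have := (mem_Ico.1 (mem_filter.1 hp).1).2
      omega
    · calc ∑ p ∈ (Ico (2 ^ j + m * 2 ^ l) (2 ^ j + (m + 1) * 2 ^ l)).filter Nat.Prime, ‖c p‖ ^ 2
          ≤ ∑ p ∈ (Ico (2 ^ j + m * 2 ^ l) (2 ^ j + (m + 1) * 2 ^ l)).filter Nat.Prime, E := by
            refine sum_le_sum fun p hp => ?_
            rw [mem_filter, mem_Ico] at hp
            exact hE p (by omega) (by omega) hp.2
        _ ≤ 2 ^ l * E := by
            rw [sum_const, nsmul_eq_mul]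
            refine mul_le_mul_of_nonneg_right ?_ hE0
            have h3 : ((Ico (2 ^ j + m * 2 ^ l) (2 ^ j + (m + 1) * 2 ^ l)).filter Nat.Prime).card ≤
                2 ^ l := by
              refine (card_filter_le _ _).trans ?_
              rw [Nat.card_Ico]
              have e : (m + 1) * 2 ^ l = m * 2 ^ l + 2 ^ l := by ring
              rw [e, ← add_assoc, Nat.add_sub_cancel_left]
            exact_mod_cast h3
  have h4 : ((s.filter fun i => ∃ a b : ℕ, 2 ^ j ≤ a ∧ a ≤ b ∧ b ≤ 2 ^ (j + 1) ∧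
      2 * (j + 1) * B < ‖∑ n ∈ Ico a b, FF c (f i) n‖).card : ℝ) ≤
      ∑ l ∈ range (j + 1), ∑ m ∈ range (2 ^ (j - l)), ((bad l m).card : ℝ) := by
    have h5 := (card_le_card h1).trans card_biUnion_le
    have h6 : ∑ l ∈ range (j + 1), ((range (2 ^ (j - l))).biUnion fun m => bad l m).card ≤
        ∑ l ∈ range (j + 1), ∑ m ∈ range (2 ^ (j - l)), (bad l m).card :=
      sum_le_sum fun l _ => card_biUnion_le
    exact_mod_cast h5.trans h6
  refine h4.trans ?_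
  have h7 : ∀ l ∈ range (j + 1), ∑ m ∈ range (2 ^ (j - l)), ((bad l m).card : ℝ) ≤
      R * (k.factorial * (2 ^ j * E / B ^ 2) ^ k) := by
    intro l hl
    refine (sum_le_sum (h2 l hl)).trans ?_
    rw [sum_const, card_range, nsmul_eq_mul]
    rw [mem_range] at hl
    have e1 : (2 : ℝ) ^ j * E / B ^ 2 = 2 ^ (j - l) * (2 ^ l * E / B ^ 2) := by
      have : (2 : ℝ) ^ j = 2 ^ (j - l) * 2 ^ l := by rw [← pow_add]; congr 1; omega
      rw [this]
      ring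
    rw [e1, mul_pow]
    have h8 : (2 : ℝ) ^ (j - l) ≤ (2 ^ (j - l)) ^ k :=
      le_self_pow₀ (one_le_pow₀ (by norm_num)) (by omega)
    have h9 : 0 ≤ R * (k.factorial * (2 ^ l * E / B ^ 2) ^ k) := by positivity
    push_cast
    calc (2 : ℝ) ^ (j - l) * (R * (k.factorial * (2 ^ l * E / B ^ 2) ^ k))
        ≤ (2 ^ (j - l)) ^ k * (R * (k.factorial * (2 ^ l * E / B ^ 2) ^ k)) :=
          mul_le_mul_of_nonneg_right h8 h9
      _ = _ := by ring
  refine (sum_le_sum h7).trans ?_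
  rw [sum_const, card_range, nsmul_eq_mul]
  push_cast
  exact le_rfl

end

end Pool.Agent.Q28.LS
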