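import Pool.Agent.Q28.LS.Gen
import Pool.Agent.Helper112.MultLS

/-! The family of the primitive Dirichlet characters -/

set_option autoImplicit false

open Finset NumberField IsDedekindDomain Filter Topology
open Pool.Agent.H921R2.TatePole (nm two_le_nm)

namespace Pool.Agent.Q28.LS

/-- the character as a function on the natural numbers -/
noncomputable def chi (i : Σ q : ℕ, DirichletCharacter ℂ q) (n : ℕ) : ℂ := i.2 (n : ZMod i.1)

lemma chi_CM (i : Σ q : ℕ, DirichletCharacter ℂ q) : CM (chi i) where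
  one := by unfold chi; simp
  mul m n _ _ := by unfold chi; push_cast; rw [map_mul]
  bd n := DirichletCharacter.norm_le_one _ _

open scoped Classical in
/-- the primitive characters of conductor at most `Q` -/
noncomputable def prims (Q : ℕ) : Finset (Σ q : ℕ, DirichletCharacter ℂ q) :=
  (Icc 1 Q).sigma fun q => (univ : Finset (DirichletCharacter ℂ q)).filter fun χ => χ.IsPrimitive

lemma mem_prims {Q : ℕ} {i : Σ q : ℕ, DirichletCharacter ℂ q} :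
    i ∈ prims Q ↔ (1 ≤ i.1 ∧ i.1 ≤ Q) ∧ i.2.IsPrimitive := by
  unfold prims
  simp

lemma prims_LS (Q : ℕ) (h : ℕ) (a : ℕ → ℂ) :
    ∑ i ∈ prims Q, ‖∑ n ∈ Icc 1 (2 * Q ^ 2), a n * chi i n‖ ^ 2 ≤
      (18 * (1 + Real.log ((Q ^ 2 : ℕ) : ℝ)) ^ h * ((Q ^ 2 : ℕ) : ℝ)) *
        ∑ n ∈ Icc 1 (2 * Q ^ 2), ‖a n‖ ^ 2 := by
  classical
  have h1 := Pool.Agent.Helper112.mult_large_sieve (2 * Q ^ 2) Q a
  have h2 : ∑ i ∈ prims Q, ‖∑ n ∈ Icc 1 (2 * Q ^ 2), a n * chi i n‖ ^ 2 ≤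
      ∑ f ∈ Icc 1 Q, ((f : ℝ) / (Nat.totient f : ℝ)) *
      ∑ χ ∈ (univ : Finset (DirichletCharacter ℂ f)).filter (fun χ => χ.IsPrimitive),
        ‖∑ n ∈ Icc 1 (2 * Q ^ 2), a n * χ (n : ZMod f)‖ ^ 2 := by
    unfold prims
    rw [sum_sigma]
    refine sum_le_sum fun f hf => ?_
    rw [mem_Icc] at hf
    have hφ : (0 : ℝ) < Nat.totient f := by exact_mod_cast Nat.totient_pos.2 (by omega)
    have hle : (Nat.totient f : ℝ) ≤ f := by exact_mod_cast Nat.totient_le f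
    have h3 : (1 : ℝ) ≤ (f : ℝ) / Nat.totient f := by rwa [one_le_div hφ]
    have h4 : 0 ≤ ∑ χ ∈ (univ : Finset (DirichletCharacter ℂ f)).filter (fun χ => χ.IsPrimitive),
        ‖∑ n ∈ Icc 1 (2 * Q ^ 2), a n * χ (n : ZMod f)‖ ^ 2 := sum_nonneg fun _ _ => sq_nonneg _
    refine le_trans (le_of_eq ?_) (le_mul_of_one_le_left h4 h3)
    rfl
  refine h2.trans (h1.trans ?_)
  refine mul_le_mul_of_nonneg_right ?_ (sum_nonneg fun _ _ => sq_nonneg _)
  have hlog : 0 ≤ Real.log ((Q ^ 2 : ℕ) : ℝ) := Real.log_natCast_nonneg _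
  have h5 : (1 : ℝ) ≤ (1 + Real.log ((Q ^ 2 : ℕ) : ℝ)) ^ h := one_le_pow₀ (by linarith)
  push_cast
  push_cast at h5
  have h6 : (0 : ℝ) ≤ (Q : ℝ) ^ 2 := by positivity
  nlinarith [mul_le_mul_of_nonneg_right h5 h6]

/-- numerical: powers of the logarithm -/
lemma ev_logs {A A' : ℝ} (hAA : A' < A) :
    ∀ᶠ Q : ℕ in atTop, (Real.log ((Q ^ 2 : ℕ) : ℝ)) ^ A' ≤ (Real.log Q) ^ A := by
  have h1 : Tendsto (fun Q : ℕ => (Real.log (Q : ℝ)) ^ (A - A')) atTop atTop :=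
    (tendsto_rpow_atTop (by linarith)).comp (Real.tendsto_log_atTop.comp tendsto_natCast_atTop_atTop)
  filter_upwards [h1.eventually_ge_atTop ((2 : ℝ) ^ A'), eventually_ge_atTop 3] with Q hQ hQ3
  have hQ0 : (0 : ℝ) < Q := by exact_mod_cast (by omega : 0 < Q)
  have hlog : 0 < Real.log Q := Real.log_pos (by exact_mod_cast (by omega : 1 < Q))
  have e : Real.log ((Q ^ 2 : ℕ) : ℝ) = 2 * Real.log Q := by
    push_cast
    rw [Real.log_pow]
    push_cast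
    ring
  rw [e, Real.mul_rpow (by norm_num) hlog.le]
  calc (2 : ℝ) ^ A' * Real.log Q ^ A' ≤ Real.log Q ^ (A - A') * Real.log Q ^ A' :=
        mul_le_mul_of_nonneg_right hQ (by positivity)
    _ = _ := by
        rw [← Real.rpow_add hlog]
        congr 1
        ring

open scoped Classical in
/-- **Almost all twists**: for all but `Q ^ (2 - δ)` primitive characters of conductor at most `Q`. -/
theorem twists (ε A : ℝ) (hε : 0 < ε) (hA : 1 < 2 * ε * A) : ∃ δ : ℝ, 0 < δ ∧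
    ∀ (C : ℝ) (d N₀ : ℕ), 1 ≤ C → ∃ Q₀ : ℕ, ∀ Q : ℕ, Q₀ ≤ Q →
      ∀ (K : Type) [Field K] [NumberField K], Module.finrank ℚ K ≤ d →
      ∀ (θ : ℝ) (den : HeightOneSpectrum (𝓞 K) → ℂ → ℂ) (tr : HeightOneSpectrum (𝓞 K) → ℂ),
        Good C θ N₀ den tr →
      (((prims Q).filter fun i => ¬ ∀ x y : ℝ, (Real.log Q) ^ A ≤ x → x ≤ y → y ≤ (Q : ℝ) ^ 2 →
        ∀ s : ℂ, θ + 1 / 2 + ε ≤ s.re → |s.im| ≤ (Q : ℝ) ^ δ →
          ‖win den (chi i) x y s - 1‖ ≤ x ^ (-δ)).card : ℝ) ≤ (Q : ℝ) ^ (2 - δ) := by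
  have hA0 : 0 < A := by
    by_contra h
    rw [not_lt] at h
    nlinarith
  set A' : ℝ := (A + 1 / (2 * ε)) / 2 with hA'
  have h2 : 1 / (2 * ε) < A := by rw [div_lt_iff₀ (by positivity)]; linarith
  have hA'0 : 0 < A' := by positivity
  have hA'A : A' < A := by rw [hA']; linarith
  have hA'1 : 1 < 2 * ε * A' := by
    have e : 2 * ε * A' = (2 * ε * A + 1) / 2 := by rw [hA']; field_simp
    rw [e]; linarith
  obtain ⟨δ₁, hδ₁, hgen⟩ := gen ε A' hε hA'0 hA'1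
  -- exceptions `≤ (2 Q^δ + 1 + 2) * Q^(2 - 2 δ₁)`
  set δ : ℝ := δ₁ / 2 with hδ
  refine ⟨δ, by positivity, fun C d N₀ hC => ?_⟩
  obtain ⟨M₀, hM₀⟩ := hgen (max C 18) d N₀ 0 (hC.trans (le_max_left _ _))
  have hev := (ev_logs hA'A).and (((tendsto_rpow_atTop (by positivity : 0 < δ)).comp
    tendsto_natCast_atTop_atTop |>.eventually_ge_atTop 5).and ((eventually_ge_atTop M₀).and
      (eventually_ge_atTop 3)))
  obtain ⟨Q₀, hQ₀⟩ := eventually_atTop.1 hev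
  refine ⟨Q₀, fun Q hQ K _ _ hd θ den tr hG => ?_⟩
  obtain ⟨h3, h4, h5, h6⟩ := hQ₀ Q hQ
  simp only [Function.comp] at h4
  have hQ3 : (3 : ℝ) ≤ Q := by exact_mod_cast h6
  have hQ1 : (1 : ℝ) ≤ Q := by linarith
  have hQ0 : (0 : ℝ) < Q := by linarith
  have hMQ : M₀ ≤ Q ^ 2 := h5.trans (Nat.le_self_pow (by norm_num) _)
  have hG' : Good (max C 18) θ N₀ den tr :=
    ⟨fun v hv => (hG.tr_le v hv).trans (mul_le_mul_of_nonneg_right (le_max_left _ _) (by positivity)),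
      fun v hv z hz => (hG.den_le v hv z hz).trans
        (mul_le_mul_of_nonneg_right (le_max_left _ _) (by positivity))⟩
  have hone := fun t₀ : ℝ => hM₀ (Q ^ 2) hMQ _ (prims Q) chi (fun i _ => chi_CM i) (fun a => by
    refine (prims_LS Q 0 a).trans (mul_le_mul_of_nonneg_right ?_ (sum_nonneg fun _ _ => sq_nonneg _))
    refine mul_le_mul_of_nonneg_right ?_ (Nat.cast_nonneg _)
    rw [pow_zero, mul_one, mul_one]
    exact le_max_right _ _) K hd θ den tr hG' t₀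
  -- the heights
  set T : ℕ := ⌈(Q : ℝ) ^ δ⌉₊ with hT
  have hTle : (T : ℝ) ≤ (Q : ℝ) ^ δ + 1 := (Nat.ceil_lt_add_one (by positivity)).le
  have hsub : ((prims Q).filter fun i => ¬ ∀ x y : ℝ, (Real.log Q) ^ A ≤ x → x ≤ y →
      y ≤ (Q : ℝ) ^ 2 → ∀ s : ℂ, θ + 1 / 2 + ε ≤ s.re → |s.im| ≤ (Q : ℝ) ^ δ →
          ‖win den (chi i) x y s - 1‖ ≤ x ^ (-δ)) ⊆
      (Icc (-(T : ℤ)) T).biUnion fun t => (prims Q).filter fun i =>
        ¬ ∀ x y : ℝ, (Real.log ((Q ^ 2 : ℕ) : ℝ)) ^ A' ≤ x → x ≤ y → y ≤ ((Q ^ 2 : ℕ) : ℝ) →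
        ∀ s : ℂ, θ + 1 / 2 + ε ≤ s.re → |s.im - (t : ℝ)| ≤ 1 →
          ‖win den (chi i) x y s - 1‖ ≤ x ^ (-δ₁) := by
    intro i hi
    rw [mem_filter] at hi
    by_contra hcon
    apply hi.2
    intro x y hx hxy hyQ s hs hst
    set t : ℤ := ⌊s.im⌋ with ht
    have h7 := Int.floor_le s.im
    have h8 := Int.lt_floor_add_one s.im
    have h9 := abs_le.1 hst
    have h10 : (Q : ℝ) ^ δ ≤ T := Nat.le_ceil _
    have htT : t ∈ Icc (-(T : ℤ)) T := by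
      rw [mem_Icc]
      constructor
      · rw [ht, Int.le_floor]
        push_cast
        linarith
      · have : (t : ℝ) ≤ (T : ℝ) := by rw [ht]; linarith
        exact_mod_cast this
    have hgood : ∀ x y : ℝ, (Real.log ((Q ^ 2 : ℕ) : ℝ)) ^ A' ≤ x → x ≤ y →
        y ≤ ((Q ^ 2 : ℕ) : ℝ) → ∀ s : ℂ, θ + 1 / 2 + ε ≤ s.re → |s.im - (t : ℝ)| ≤ 1 →
          ‖win den (chi i) x y s - 1‖ ≤ x ^ (-δ₁) := by
      by_contra h11
      apply hcon
      rw [mem_biUnion]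
      exact ⟨t, htT, mem_filter.2 ⟨hi.1, h11⟩⟩
    have h12 := hgood x y (h3.trans hx) hxy (by push_cast; exact hyQ) s hs (by
      rw [abs_of_nonneg (by rw [ht]; linarith)]
      rw [ht]
      linarith)
    refine h12.trans ?_
    -- `x ≥ 1`
    have hx1 : 1 ≤ x ∨ x < 1 := le_or_gt 1 x
    rcases hx1 with hx1 | hx1
    · exact Real.rpow_le_rpow_of_exponent_le hx1 (by rw [hδ]; linarith)
    · -- `x < 1` is impossible for large `Q` unless the logarithm is small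
      exfalso
      have h13 : (1 : ℝ) ≤ (Real.log Q) ^ A := by
        have h14 : Real.exp 1 ≤ (Q : ℝ) := by
          linarith [Real.exp_one_lt_d9]
        have h16 : 1 ≤ Real.log Q := by
          rw [← Real.log_exp 1]
          exact Real.log_le_log (Real.exp_pos _) h14
        exact Real.one_le_rpow h16 hA0.le
      linarith
  have hcard : (((prims Q).filter fun i => ¬ ∀ x y : ℝ, (Real.log Q) ^ A ≤ x → x ≤ y →
      y ≤ (Q : ℝ) ^ 2 → ∀ s : ℂ, θ + 1 / 2 + ε ≤ s.re → |s.im| ≤ (Q : ℝ) ^ δ →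
          ‖win den (chi i) x y s - 1‖ ≤ x ^ (-δ)).card : ℝ) ≤
      ∑ t ∈ Icc (-(T : ℤ)) T, ((Q ^ 2 : ℕ) : ℝ) ^ (1 - δ₁) := by
    have h7 := (card_le_card hsub).trans card_biUnion_le
    refine le_trans (by exact_mod_cast h7) (sum_le_sum fun t _ => hone (t : ℝ))
  refine hcard.trans ?_
  rw [sum_const, nsmul_eq_mul, Int.card_Icc]
  have h7 : ((((T : ℤ) + 1 - -(T : ℤ)).toNat : ℕ) : ℝ) ≤ 5 * (Q : ℝ) ^ δ := by
    have e : ((T : ℤ) + 1 - -(T : ℤ)).toNat = 2 * T + 1 := by omega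
    rw [e]
    push_cast
    have : 1 ≤ (Q : ℝ) ^ δ := by linarith
    linarith
  have h8 : ((Q ^ 2 : ℕ) : ℝ) ^ (1 - δ₁) = (Q : ℝ) ^ (2 - 4 * δ) := by
    push_cast
    rw [← Real.rpow_natCast (Q : ℝ) 2, ← Real.rpow_mul hQ0.le]
    congr 1
    rw [hδ]
    push_cast
    ring
  rw [h8]
  calc ((((T : ℤ) + 1 - -(T : ℤ)).toNat : ℕ) : ℝ) * (Q : ℝ) ^ (2 - 4 * δ)
      ≤ ((Q : ℝ) ^ δ * (Q : ℝ) ^ δ) * (Q : ℝ) ^ (2 - 4 * δ) := by
        refine mul_le_mul_of_nonneg_right (h7.trans ?_) (by positivity)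
        exact mul_le_mul_of_nonneg_right h4 (by positivity)
    _ = (Q : ℝ) ^ (2 - 2 * δ) := by
        rw [← Real.rpow_add hQ0, ← Real.rpow_add hQ0]
        congr 1
        ring
    _ ≤ _ := Real.rpow_le_rpow_of_exponent_le hQ1 (by linarith [show 0 < δ by positivity])

end Pool.Agent.Q28.LS
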