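import Pool.Agent.Q28.LS.Mom

/-! A maximal inequality over dyadic blocks -/

set_option autoImplicit false

open Finset

namespace Pool.Agent.Q28.LS

lemma sum_pairs (f : ℕ → ℂ) {a b : ℕ} (hab : a ≤ b) :
    ∑ m ∈ Ico a b, (f (2 * m) + f (2 * m + 1)) = ∑ n ∈ Ico (2 * a) (2 * b), f n := by
  induction b, hab using Nat.le_induction with
  | base => simp
  | succ b hab ih =>
    rw [sum_Ico_succ_top hab, ih, show 2 * (b + 1) = 2 * b + 1 + 1 by ring,
      sum_Ico_succ_top (by omega), sum_Ico_succ_top (by omega)]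
    ring

theorem dyad (J : ℕ) : ∀ (f : ℕ → ℂ) (B : ℝ), (∀ l < J, ∀ i, (i + 1) * 2 ^ l ≤ 2 ^ J →
    ‖∑ n ∈ Ico (i * 2 ^ l) ((i + 1) * 2 ^ l), f n‖ ≤ B) →
    ∀ N, N < 2 ^ J → ‖∑ n ∈ range N, f n‖ ≤ J * B := by
  induction J with
  | zero =>
    intro f B _ N hN
    have : N = 0 := by simpa using hN
    subst this
    simp
  | succ J ih =>
    intro f B h N hN
    have h1 := ih (fun m => f (2 * m) + f (2 * m + 1)) B (fun l hl i hi => by
      rw [sum_pairs f (Nat.mul_le_mul_right _ (Nat.le_succ i))]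
      have := h (l + 1) (by omega) i (by rw [pow_succ, pow_succ]; nlinarith)
      rw [show 2 * (i * 2 ^ l) = i * 2 ^ (l + 1) by ring,
        show 2 * ((i + 1) * 2 ^ l) = (i + 1) * 2 ^ (l + 1) by ring]
      exact this) (N / 2) (by rw [pow_succ] at hN; omega)
    have h2 : ∑ n ∈ range (2 * (N / 2)), f n = ∑ m ∈ range (N / 2), (f (2 * m) + f (2 * m + 1)) := by
      rw [range_eq_Ico, range_eq_Ico, sum_pairs f (Nat.zero_le _), mul_zero]
    rcases Nat.even_or_odd N with ⟨M, hM⟩ | ⟨M, hM⟩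
    · have e : 2 * (N / 2) = N := by omega
      rw [e] at h2
      rw [h2]
      refine h1.trans ?_
      have hB : 0 ≤ B := (norm_nonneg _).trans (h 0 (by omega) 0 (by simpa using Nat.one_le_two_pow))
      push_cast
      linarith
    · have e : N = 2 * (N / 2) + 1 := by omega
      rw [e, sum_range_succ, h2]
      refine (norm_add_le _ _).trans ?_
      have h3 := h 0 (by omega) (2 * (N / 2)) (by rw [pow_zero]; omega)
      rw [pow_zero, mul_one, mul_one, Nat.Ico_succ_singleton, sum_singleton] at h3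
      push_cast
      push_cast at h1
      linarith

/-- prefix sums up to the end of the block -/
lemma dyad' (J : ℕ) (f : ℕ → ℂ) (B : ℝ) (h : ∀ l ≤ J, ∀ i, (i + 1) * 2 ^ l ≤ 2 ^ J →
    ‖∑ n ∈ Ico (i * 2 ^ l) ((i + 1) * 2 ^ l), f n‖ ≤ B) (N : ℕ) (hN : N ≤ 2 ^ J) :
    ‖∑ n ∈ range N, f n‖ ≤ (J + 1) * B := by
  have hB : 0 ≤ B := (norm_nonneg _).trans (h 0 (by omega) 0 (by simpa using Nat.one_le_two_pow))
  rcases hN.lt_or_eq with h1 | h1
  · have := dyad J f B (fun l hl => h l hl.le) N h1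
    linarith
  · have := h J le_rfl 0 (by simp)
    rw [zero_mul, zero_add, one_mul, ← range_eq_Ico, ← h1] at this
    have hJ : (0 : ℝ) ≤ J := Nat.cast_nonneg _
    nlinarith

/-- sums over subintervals of `[2^J, 2^(J+1)]` -/
theorem dyad_sub (J : ℕ) (F : ℕ → ℂ) (B : ℝ) (h : ∀ l ≤ J, ∀ i, i < 2 ^ (J - l) →
    ‖∑ n ∈ Ico (2 ^ J + i * 2 ^ l) (2 ^ J + (i + 1) * 2 ^ l), F n‖ ≤ B) (a b : ℕ)
    (ha : 2 ^ J ≤ a) (hab : a ≤ b) (hb : b ≤ 2 ^ (J + 1)) :
    ‖∑ n ∈ Ico a b, F n‖ ≤ 2 * (J + 1) * B := by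
  have h1 : ∀ N, N ≤ 2 ^ J → ‖∑ n ∈ range N, F (2 ^ J + n)‖ ≤ (J + 1) * B := by
    refine dyad' J (fun n => F (2 ^ J + n)) B fun l hl i hi => ?_
    have h2 : i < 2 ^ (J - l) := by
      have e : 2 ^ J = 2 ^ (J - l) * 2 ^ l := by rw [← pow_add]; congr 1; omega
      rw [e] at hi
      have := Nat.le_of_mul_le_mul_right hi (by positivity)
      omega
    have h3 := h l hl i h2
    rw [sum_Ico_add F (i * 2 ^ l) ((i + 1) * 2 ^ l) (2 ^ J)]
    rw [add_comm (i * 2 ^ l), add_comm ((i + 1) * 2 ^ l)]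
    exact h3
  have h4 : ∀ N, 2 ^ J ≤ N → ∑ n ∈ range (N - 2 ^ J), F (2 ^ J + n) = ∑ n ∈ Ico (2 ^ J) N, F n := by
    intro N _
    rw [range_eq_Ico, sum_Ico_add F 0 (N - 2 ^ J) (2 ^ J)]
    congr 2 <;> omega
  have h5 : ∑ n ∈ Ico a b, F n = ∑ n ∈ Ico (2 ^ J) b, F n - ∑ n ∈ Ico (2 ^ J) a, F n := by
    rw [← sum_Ico_consecutive F ha hab]
    ring
  rw [h5, ← h4 a ha, ← h4 b (ha.trans hab)]
  refine (norm_sub_le _ _).trans ?_
  have h6 := h1 (a - 2 ^ J) (by rw [pow_succ] at hb; omega)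
  have h7 := h1 (b - 2 ^ J) (by rw [pow_succ] at hb; omega)
  linarith

/-- several blocks -/
theorem chain (S : ℕ → ℕ → ℂ) (hS : ∀ a b c, a ≤ b → b ≤ c → S a c = S a b + S b c) {ρ : ℝ}
    (hρ : 0 < ρ) (hρ1 : ρ < 1) (J : ℕ) : ∀ (m j : ℕ), j + m = J →
    (∀ i, j ≤ i → i ≤ J → ∀ a b, 2 ^ i ≤ a → a ≤ b → b ≤ 2 ^ (i + 1) → ‖S a b‖ ≤ ρ ^ i) →
    ∀ a b, 2 ^ j ≤ a → a ≤ 2 ^ (j + 1) → a ≤ b → b ≤ 2 ^ (J + 1) →
    ‖S a b‖ ≤ ρ ^ j / (1 - ρ) := by
  have h1ρ : 0 < 1 - ρ := by linarith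
  have hge : ∀ j : ℕ, ρ ^ j ≤ ρ ^ j / (1 - ρ) := fun j => by
    rw [le_div_iff₀ h1ρ]
    have : 0 < ρ ^ j := by positivity
    nlinarith
  intro m
  induction m with
  | zero =>
    intro j hj h a b ha _ hab hb
    rw [add_zero] at hj
    subst hj
    exact (h j le_rfl le_rfl a b ha hab hb).trans (hge j)
  | succ m ih =>
    intro j hj h a b ha ha2 hab hb
    rcases le_total b (2 ^ (j + 1)) with h2 | h2
    · exact (h j le_rfl (by omega) a b ha hab h2).trans (hge j)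
    · rw [hS a (2 ^ (j + 1)) b ha2 h2]
      refine (norm_add_le _ _).trans ?_
      have h3 := h j le_rfl (by omega) a (2 ^ (j + 1)) ha ha2 le_rfl
      have h4 := ih (j + 1) (by omega) (fun i hi => h i (by omega)) (2 ^ (j + 1)) b le_rfl
        (Nat.pow_le_pow_right (by norm_num) (by omega)) h2 hb
      have h5 : ρ ^ j + ρ ^ (j + 1) / (1 - ρ) = ρ ^ j / (1 - ρ) := by
        rw [pow_succ]
        field_simp
        ring
      linarith

end Pool.Agent.Q28.LS
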