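import Pool.Agent.Q28.LS.Main
import Pool.Agent.Q28.LS.Abel
import Pool.Agent.H921R2.TatePole.Base

/-! Truncated Euler products over number fields and sums over primes -/

set_option autoImplicit false

open Finset NumberField IsDedekindDomain
open Pool.Agent.H921R2.TatePole (nm two_le_nm below nm_eq below_le_nm card_above deg)

namespace Pool.Agent.Q28.LS

section
variable {K : Type} [Field K] [NumberField K]

lemma normLt_finite (a b : ℕ) : {v : HeightOneSpectrum (𝓞 K) | a ≤ nm v ∧ nm v < b}.Finite := by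
  have h := Ideal.finite_setOfPred_absNorm_le (S := 𝓞 K) b
  refine Set.Finite.of_finite_image (f := fun v : HeightOneSpectrum (𝓞 K) => v.asIdeal)
    (h.subset ?_) ?_
  · rintro _ ⟨v, hv, rfl⟩
    exact hv.2.le
  · intro v _ u _ h
    exact HeightOneSpectrum.ext h

variable (K) in
/-- the primes `v` with `a ≤ Nv < b` -/
noncomputable def VS (a b : ℕ) : Finset (HeightOneSpectrum (𝓞 K)) := (normLt_finite a b).toFinset

lemma mem_VS {a b : ℕ} {v : HeightOneSpectrum (𝓞 K)} : v ∈ VS K a b ↔ a ≤ nm v ∧ nm v < b := by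
  unfold VS; simp

/-- the local factors at the primes of norm at least `N₀` -/
structure Good (C θ : ℝ) (N₀ : ℕ) (den : HeightOneSpectrum (𝓞 K) → ℂ → ℂ)
    (tr : HeightOneSpectrum (𝓞 K) → ℂ) : Prop where
  tr_le : ∀ v : HeightOneSpectrum (𝓞 K), N₀ ≤ nm v → ‖tr v‖ ≤ C * (nm v : ℝ) ^ θ
  den_le : ∀ v : HeightOneSpectrum (𝓞 K), N₀ ≤ nm v → ∀ z : ℂ, (nm v : ℝ) ^ θ * ‖z‖ ≤ 1 →
    ‖den v z - 1 + tr v * z‖ ≤ C * ((nm v : ℝ) ^ θ * ‖z‖) ^ 2

/-- the coefficient of the prime `p` -/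
noncomputable def ct (N₀ : ℕ) (tr : HeightOneSpectrum (𝓞 K) → ℂ) (p : ℕ) : ℂ :=
  if p < N₀ then 0 else ∑ v ∈ VS K p (p + 1), tr v

lemma VS_card {p : ℕ} (hp : p.Prime) : (VS K p (p + 1)).card ≤ Module.finrank ℚ K := by
  refine card_above ⟨p, hp⟩ _ fun v hv => ?_
  rw [mem_VS] at hv
  have h : nm v = p := by omega
  apply Subtype.ext
  change (Ideal.absNorm v.asIdeal).minFac = p
  unfold nm at h
  rw [h, hp.minFac_eq]

lemma ct_le {C θ : ℝ} {N₀ : ℕ} {den : HeightOneSpectrum (𝓞 K) → ℂ → ℂ}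
    {tr : HeightOneSpectrum (𝓞 K) → ℂ} (hC : 0 ≤ C) (h : Good C θ N₀ den tr) {d : ℕ}
    (hd : Module.finrank ℚ K ≤ d) {p : ℕ} (hp : p.Prime) :
    ‖ct N₀ tr p‖ ≤ d * C * (p : ℝ) ^ θ := by
  unfold ct
  split_ifs with h1
  · rw [norm_zero]; positivity
  · refine (norm_sum_le _ _).trans ?_
    have h2 : ∀ v ∈ VS K p (p + 1), ‖tr v‖ ≤ C * (p : ℝ) ^ θ := by
      intro v hv
      rw [mem_VS] at hv
      have h3 : nm v = p := by omega
      have := h.tr_le v (by omega)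
      rwa [h3] at this
    refine (sum_le_sum h2).trans ?_
    rw [sum_const, nsmul_eq_mul, mul_assoc]
    refine mul_le_mul_of_nonneg_right ?_ (by positivity)
    exact_mod_cast (VS_card hp).trans hd

/-- the sum of `p ^ (-(1 + ε))` -/
noncomputable def ZZ (ε : ℝ) : ℝ := ∑' n : ℕ, (n : ℝ) ^ (-(1 + ε))

lemma ZZ_nonneg (ε : ℝ) : 0 ≤ ZZ ε := tsum_nonneg fun n => by positivity

lemma sum_below {ε : ℝ} (hε : 0 < ε) {d : ℕ} (hd : Module.finrank ℚ K ≤ d)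
    (S : Finset (HeightOneSpectrum (𝓞 K))) :
    ∑ v ∈ S, ((below v : ℕ) : ℝ) ^ (-(1 + ε)) ≤ d * ZZ ε := by
  classical
  have h1 : ∑ v ∈ S, ((below v : ℕ) : ℝ) ^ (-(1 + ε)) =
      ∑ p ∈ S.image below, ∑ v ∈ S with below v = p, ((below v : ℕ) : ℝ) ^ (-(1 + ε)) :=
    (sum_fiberwise_of_maps_to (fun v hv => mem_image_of_mem _ hv) _).symm
  rw [h1]
  have h2 : ∀ p ∈ S.image below, ∑ v ∈ S with below v = p, ((below v : ℕ) : ℝ) ^ (-(1 + ε)) ≤
      d * ((p : ℕ) : ℝ) ^ (-(1 + ε)) := by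
    intro p _
    have h3 : ∑ v ∈ S with below v = p, ((below v : ℕ) : ℝ) ^ (-(1 + ε)) =
        ∑ v ∈ S with below v = p, ((p : ℕ) : ℝ) ^ (-(1 + ε)) :=
      sum_congr rfl fun v hv => by rw [(mem_filter.1 hv).2]
    rw [h3, sum_const, nsmul_eq_mul]
    refine mul_le_mul_of_nonneg_right ?_ (by positivity)
    have := (card_above p (S.filter fun v => below v = p) fun v hv => (mem_filter.1 hv).2).trans hd
    exact_mod_cast this
  refine (sum_le_sum h2).trans ?_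
  rw [← mul_sum]
  refine mul_le_mul_of_nonneg_left ?_ (Nat.cast_nonneg _)
  have h4 : ∑ p ∈ S.image below, ((p : ℕ) : ℝ) ^ (-(1 + ε)) =
      ∑ n ∈ (S.image below).image (fun p : Nat.Primes => (p : ℕ)), (n : ℝ) ^ (-(1 + ε)) :=
    (sum_image (f := fun n : ℕ => (n : ℝ) ^ (-(1 + ε))) (g := fun p : Nat.Primes => (p : ℕ))
      (fun p _ q _ h => Subtype.ext h)).symm
  rw [h4]
  exact Summable.sum_le_tsum _ (fun n _ => by positivity) (Real.summable_nat_rpow.2 (by linarith))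

/-- the terms with the powers of the norm -/
lemma sum_tail {ε : ℝ} (hε : 0 < ε) {d : ℕ} (hd : Module.finrank ℚ K ≤ d) {a : ℕ} (ha : 1 ≤ a)
    (S : Finset (HeightOneSpectrum (𝓞 K))) (hS : ∀ v ∈ S, a ≤ nm v) :
    ∑ v ∈ S, (nm v : ℝ) ^ (-(1 + 2 * ε)) ≤ (a : ℝ) ^ (-(ε / 2)) * (d * ZZ ε) := by
  refine le_trans ?_ (mul_le_mul_of_nonneg_left (sum_below hε hd S) (by positivity))
  rw [mul_sum]
  refine sum_le_sum fun v hv => ?_
  have ha0 : (0 : ℝ) < a := by exact_mod_cast ha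
  have h1 : (a : ℝ) ≤ nm v := by exact_mod_cast hS v hv
  have hq0 : (0 : ℝ) < nm v := ha0.trans_le h1
  have hq1 : (1 : ℝ) ≤ nm v := by
    have : (1 : ℝ) ≤ a := by exact_mod_cast ha
    linarith
  have h2 : ((below v : ℕ) : ℝ) ≤ nm v := by exact_mod_cast below_le_nm v
  have hb : (0 : ℝ) < ((below v : ℕ) : ℝ) := by exact_mod_cast (below v).2.pos
  calc (nm v : ℝ) ^ (-(1 + 2 * ε)) ≤ (nm v : ℝ) ^ (-(ε / 2) + -(1 + ε)) :=
        Real.rpow_le_rpow_of_exponent_le hq1 (by linarith)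
    _ = (nm v : ℝ) ^ (-(ε / 2)) * (nm v : ℝ) ^ (-(1 + ε)) := Real.rpow_add hq0 _ _
    _ ≤ _ := mul_le_mul (Real.rpow_le_rpow_of_nonpos ha0 h1 (by linarith))
        (Real.rpow_le_rpow_of_nonpos hb h2 (by linarith)) (by positivity) (by positivity)

/-- the primes of degree at least two -/
lemma sum_tail2 {ε : ℝ} (hε : 0 < ε) {d : ℕ} (hd : Module.finrank ℚ K ≤ d) {a : ℕ} (ha : 1 ≤ a)
    (S : Finset (HeightOneSpectrum (𝓞 K))) (hS : ∀ v ∈ S, a ≤ nm v) (hS2 : ∀ v ∈ S, ¬ (nm v).Prime) :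
    ∑ v ∈ S, (nm v : ℝ) ^ (-(1 / 2 + ε)) ≤ (a : ℝ) ^ (-(ε / 2)) * (d * ZZ ε) := by
  refine le_trans ?_ (mul_le_mul_of_nonneg_left (sum_below hε hd S) (by positivity))
  rw [mul_sum]
  refine sum_le_sum fun v hv => ?_
  have ha0 : (0 : ℝ) < a := by exact_mod_cast ha
  have h1 : (a : ℝ) ≤ nm v := by exact_mod_cast hS v hv
  have hq0 : (0 : ℝ) < nm v := ha0.trans_le h1
  have hb : (0 : ℝ) < ((below v : ℕ) : ℝ) := by exact_mod_cast (below v).2.pos
  have h2 : ((below v : ℕ) : ℝ) ^ 2 ≤ nm v := by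
    obtain ⟨h3, h4, _⟩ := nm_eq v
    have h5 : 2 ≤ deg v := by
      by_contra hcon
      have h6 : deg v = 1 := by omega
      rw [h6, pow_one] at h3
      exact hS2 v hv (h3 ▸ (below v).2)
    have h6 : (below v : ℕ) ^ 2 ≤ nm v := by
      rw [h3]
      exact Nat.pow_le_pow_right (below v).2.pos h5
    exact_mod_cast h6
  calc (nm v : ℝ) ^ (-(1 / 2 + ε)) = (nm v : ℝ) ^ (-(ε / 2) + -(1 / 2 + ε / 2)) := by
        congr 1; ring
    _ = (nm v : ℝ) ^ (-(ε / 2)) * (nm v : ℝ) ^ (-(1 / 2 + ε / 2)) := Real.rpow_add hq0 _ _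
    _ ≤ (a : ℝ) ^ (-(ε / 2)) * (((below v : ℕ) : ℝ) ^ 2) ^ (-(1 / 2 + ε / 2)) :=
        mul_le_mul (Real.rpow_le_rpow_of_nonpos ha0 h1 (by linarith))
          (Real.rpow_le_rpow_of_nonpos (by positivity) h2 (by linarith)) (by positivity)
          (by positivity)
    _ = _ := by
        rw [← Real.rpow_natCast ((below v : ℕ) : ℝ) 2, ← Real.rpow_mul hb.le]
        congr 2
        push_cast
        ring

/-- the argument of the local factor -/
noncomputable def zz (f : ℕ → ℂ) (s : ℂ) (v : HeightOneSpectrum (𝓞 K)) : ℂ :=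
  f (nm v) * (nm v : ℂ) ^ (-s)

/-- the part of degree one -/
lemma deg_one_sum (N₀ : ℕ) (tr : HeightOneSpectrum (𝓞 K) → ℂ) (f : ℕ → ℂ) (s s₀ : ℂ) {a b : ℕ}
    (ha : N₀ ≤ a) (ha1 : 1 ≤ a) :
    ∑ v ∈ VS K a b with (nm v).Prime, tr v * zz f s v =
      ∑ n ∈ Ico a b, FF (fun p => ct (K := K) N₀ tr p * (p : ℂ) ^ (-s₀)) f n *
        (n : ℂ) ^ (-(s - s₀)) := by
  classical
  rw [← sum_fiberwise_of_maps_to (g := fun v => nm v) (t := Ico a b) (fun v hv => by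
    rw [mem_filter, mem_VS] at hv
    exact mem_Ico.2 hv.1)]
  refine sum_congr rfl fun n hn => ?_
  rw [mem_Ico] at hn
  have hn0 : (n : ℂ) ≠ 0 := by exact_mod_cast (by omega : n ≠ 0)
  unfold FF
  by_cases hp : n.Prime
  · rw [if_pos hp]
    have h1 : ((VS K a b).filter (fun v => (nm v).Prime)).filter (fun v => nm v = n) =
        VS K n (n + 1) := by
      ext v
      simp only [mem_filter, mem_VS]
      constructor
      · rintro ⟨_, h⟩
        omega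
      · intro h
        have h2 : nm v = n := by omega
        refine ⟨⟨by omega, ?_⟩, h2⟩
        rw [h2]; exact hp
    rw [h1]
    change _ = ct (K := K) N₀ tr n * (n : ℂ) ^ (-s₀) * f n * (n : ℂ) ^ (-(s - s₀))
    unfold ct
    rw [if_neg (by omega), sum_mul, sum_mul, sum_mul]
    refine sum_congr rfl fun v hv => ?_
    rw [mem_VS] at hv
    have h2 : nm v = n := by omega
    unfold zz
    rw [h2]
    have h3 : (n : ℂ) ^ (-s) = (n : ℂ) ^ (-s₀) * (n : ℂ) ^ (-(s - s₀)) := by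
      rw [← Complex.cpow_add _ _ hn0]
      congr 1
      ring
    rw [h3]
    ring
  · rw [if_neg hp, zero_mul]
    refine sum_eq_zero fun v hv => ?_
    rw [mem_filter, mem_filter] at hv
    exact absurd (hv.2 ▸ hv.1.2) hp

lemma log_close {Y : ℂ} (hY : ‖Y‖ ≤ 1 / 2) : ‖-Complex.log (1 - Y) - Y‖ ≤ ‖Y‖ ^ 2 := by
  have h1 : ‖-Y‖ < 1 := by rw [norm_neg]; linarith
  have h2 := Complex.norm_log_one_add_sub_self_le h1
  rw [norm_neg] at h2
  have e : -Complex.log (1 - Y) - Y = -(Complex.log (1 + -Y) - -Y) := by ring_nf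
  rw [e, norm_neg]
  refine h2.trans ?_
  have h3 : (1 - ‖Y‖)⁻¹ ≤ 2 := by
    rw [inv_le_comm₀ (by linarith) (by norm_num)]
    linarith
  have h4 : 0 ≤ ‖Y‖ ^ 2 := sq_nonneg _
  nlinarith

/-- one local factor -/
lemma local_close {C θ : ℝ} {N₀ : ℕ} {den : HeightOneSpectrum (𝓞 K) → ℂ → ℂ}
    {tr : HeightOneSpectrum (𝓞 K) → ℂ} (hC : 1 ≤ C) (h : Good C θ N₀ den tr) {f : ℕ → ℂ} (hf : CM f)
    {s : ℂ} {ε : ℝ} (hε : 0 < ε) (hs : θ + 1 / 2 + ε ≤ s.re) {v : HeightOneSpectrum (𝓞 K)}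
    (hv : N₀ ≤ nm v) (hv2 : 16 * C ^ 2 ≤ nm v) :
    ‖tr v * zz f s v‖ ≤ C * (nm v : ℝ) ^ (-(1 / 2 + ε)) ∧
    ∃ L : ℂ, (den v (zz f s v))⁻¹ = Complex.exp L ∧
      ‖L - tr v * zz f s v‖ ≤ 5 * C ^ 2 * (nm v : ℝ) ^ (-(1 + 2 * ε)) := by
  have hq2 : 2 ≤ nm v := two_le_nm v
  have hq0 : (0 : ℝ) < nm v := by exact_mod_cast (by omega : 0 < nm v)
  have hq1 : (1 : ℝ) ≤ nm v := by exact_mod_cast (by omega : 1 ≤ nm v)
  have hz : (nm v : ℝ) ^ θ * ‖zz f s v‖ ≤ (nm v : ℝ) ^ (-(1 / 2 + ε)) := by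
    have h1 : ‖zz f s v‖ ≤ (nm v : ℝ) ^ (-s.re) := by
      unfold zz
      rw [norm_mul, Complex.norm_natCast_cpow_of_pos (by omega), Complex.neg_re]
      exact mul_le_of_le_one_left (by positivity) (hf.bd _)
    calc (nm v : ℝ) ^ θ * ‖zz f s v‖ ≤ (nm v : ℝ) ^ θ * (nm v : ℝ) ^ (-s.re) :=
          mul_le_mul_of_nonneg_left h1 (by positivity)
      _ = (nm v : ℝ) ^ (θ + -s.re) := (Real.rpow_add hq0 _ _).symm
      _ ≤ _ := Real.rpow_le_rpow_of_exponent_le hq1 (by linarith)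
  set u : ℝ := (nm v : ℝ) ^ θ * ‖zz f s v‖ with hu
  have hu0 : 0 ≤ u := by positivity
  have hr1 : (nm v : ℝ) ^ (-(1 / 2 + ε)) ≤ (nm v : ℝ) ^ (-(1 / 2) : ℝ) :=
    Real.rpow_le_rpow_of_exponent_le hq1 (by linarith)
  have hr2 : (nm v : ℝ) ^ (-(1 / 2) : ℝ) ≤ 1 / (4 * C) := by
    rw [Real.rpow_neg hq0.le, ← Real.sqrt_eq_rpow, ← one_div]
    refine one_div_le_one_div_of_le (by positivity) ?_
    refine Real.le_sqrt_of_sq_le ?_
    linarith [hv2]
  have hu4 : u ≤ 1 / (4 * C) := hz.trans (hr1.trans hr2)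
  have hCu : C * u ≤ 1 / 4 := by
    have := mul_le_mul_of_nonneg_left hu4 (by linarith : (0 : ℝ) ≤ C)
    refine this.trans (le_of_eq ?_)
    field_simp
  have hu1 : u ≤ 1 := by nlinarith
  have htr : ‖tr v * zz f s v‖ ≤ C * u := by
    rw [norm_mul, hu, ← mul_assoc]
    exact mul_le_mul_of_nonneg_right (h.tr_le v hv) (norm_nonneg _)
  have hden := h.den_le v hv (zz f s v) hu1
  rw [← hu] at hden
  set Y : ℂ := 1 - den v (zz f s v) with hY
  have hYt : ‖Y - tr v * zz f s v‖ ≤ C * u ^ 2 := by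
    have e : Y - tr v * zz f s v = -(den v (zz f s v) - 1 + tr v * zz f s v) := by rw [hY]; ring
    rw [e, norm_neg]
    exact hden
  have hYn : ‖Y‖ ≤ 2 * (C * u) := by
    have h1 : ‖Y‖ ≤ ‖Y - tr v * zz f s v‖ + ‖tr v * zz f s v‖ := by
      have := norm_add_le (Y - tr v * zz f s v) (tr v * zz f s v)
      rwa [sub_add_cancel] at this
    have h2 : C * u ^ 2 ≤ C * u := by
      have : u ^ 2 ≤ u := by nlinarith
      exact mul_le_mul_of_nonneg_left this (by linarith)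
    linarith
  have hlog := log_close (Y := Y) (by linarith)
  have hY1 : 1 - Y ≠ 0 := by
    intro h0
    have : Y = 1 := by linear_combination -h0
    rw [this, norm_one] at hYn
    linarith
  have hur : u ^ 2 ≤ (nm v : ℝ) ^ (-(1 + 2 * ε)) := by
    have h1 := pow_le_pow_left₀ hu0 hz 2
    refine h1.trans (le_of_eq ?_)
    rw [← Real.rpow_natCast, ← Real.rpow_mul hq0.le]
    congr 1
    push_cast
    ring
  refine ⟨htr.trans (mul_le_mul_of_nonneg_left hz (by linarith)), -Complex.log (1 - Y), ?_, ?_⟩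
  · rw [Complex.exp_neg, Complex.exp_log hY1, hY]
    congr 1
    ring
  · have h1 : ‖-Complex.log (1 - Y) - tr v * zz f s v‖ ≤
        ‖-Complex.log (1 - Y) - Y‖ + ‖Y - tr v * zz f s v‖ := by
      have := norm_add_le (-Complex.log (1 - Y) - Y) (Y - tr v * zz f s v)
      rwa [sub_add_sub_cancel] at this
    have h2 : ‖Y‖ ^ 2 ≤ 4 * C ^ 2 * u ^ 2 := by
      have := pow_le_pow_left₀ (norm_nonneg _) hYn 2
      linarith [this]
    have h3 : C * u ^ 2 ≤ C ^ 2 * u ^ 2 :=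
      mul_le_mul_of_nonneg_right (by nlinarith) (sq_nonneg _)
    have h4 : 5 * C ^ 2 * u ^ 2 ≤ 5 * C ^ 2 * (nm v : ℝ) ^ (-(1 + 2 * ε)) :=
      mul_le_mul_of_nonneg_left hur (by positivity)
    linarith

/-- the truncated product -/
theorem prod_close {C θ : ℝ} {N₀ : ℕ} {den : HeightOneSpectrum (𝓞 K) → ℂ → ℂ}
    {tr : HeightOneSpectrum (𝓞 K) → ℂ} (hC : 1 ≤ C) (h : Good C θ N₀ den tr) {f : ℕ → ℂ} (hf : CM f)
    {s : ℂ} {ε : ℝ} (hε : 0 < ε) (hs : θ + 1 / 2 + ε ≤ s.re) {d : ℕ} (hd : Module.finrank ℚ K ≤ d)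
    {a b : ℕ} (ha : N₀ ≤ a) (ha1 : 1 ≤ a) (ha2 : 16 * C ^ 2 ≤ a) (s₀ : ℂ) {V : ℝ}
    (hV : ‖∑ n ∈ Ico a b, FF (fun p => ct (K := K) N₀ tr p * (p : ℂ) ^ (-s₀)) f n *
        (n : ℂ) ^ (-(s - s₀))‖ ≤ V)
    (hsm : V + 6 * C ^ 2 * (d * ZZ ε) * (a : ℝ) ^ (-(ε / 2)) ≤ 1) :
    ‖∏ v ∈ VS K a b, (den v (zz f s v))⁻¹ - 1‖ ≤
      2 * (V + 6 * C ^ 2 * (d * ZZ ε) * (a : ℝ) ^ (-(ε / 2))) := by
  classical
  have hv1 : ∀ v ∈ VS K a b, N₀ ≤ nm v ∧ 16 * C ^ 2 ≤ nm v ∧ a ≤ nm v := by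
    intro v hv
    rw [mem_VS] at hv
    refine ⟨by omega, ha2.trans ?_, hv.1⟩
    exact_mod_cast hv.1
  have hloc := fun v (hv : v ∈ VS K a b) =>
    local_close hC h hf hε hs (hv1 v hv).1 (hv1 v hv).2.1
  set L : HeightOneSpectrum (𝓞 K) → ℂ := fun v =>
    if hv : v ∈ VS K a b then (hloc v hv).2.choose else 0 with hL
  have hL1 : ∀ v ∈ VS K a b, (den v (zz f s v))⁻¹ = Complex.exp (L v) := by
    intro v hv
    rw [hL]
    simp only [dif_pos hv]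
    exact (hloc v hv).2.choose_spec.1
  have hL2 : ∀ v ∈ VS K a b, ‖L v - tr v * zz f s v‖ ≤ 5 * C ^ 2 * (nm v : ℝ) ^ (-(1 + 2 * ε)) := by
    intro v hv
    rw [hL]
    simp only [dif_pos hv]
    exact (hloc v hv).2.choose_spec.2
  rw [prod_congr rfl hL1, ← Complex.exp_sum]
  have hsum : ‖∑ v ∈ VS K a b, L v‖ ≤ V + 6 * C ^ 2 * (d * ZZ ε) * (a : ℝ) ^ (-(ε / 2)) := by
    have e1 : ∑ v ∈ VS K a b, L v = ∑ v ∈ VS K a b, (L v - tr v * zz f s v) +
        (∑ v ∈ VS K a b with (nm v).Prime, tr v * zz f s v +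
          ∑ v ∈ VS K a b with ¬ (nm v).Prime, tr v * zz f s v) := by
      rw [sum_filter_add_sum_filter_not, ← sum_add_distrib]
      exact sum_congr rfl fun v _ => by ring
    rw [e1]
    have h1 : ‖∑ v ∈ VS K a b, (L v - tr v * zz f s v)‖ ≤
        5 * C ^ 2 * ((a : ℝ) ^ (-(ε / 2)) * (d * ZZ ε)) := by
      refine (norm_sum_le _ _).trans ((sum_le_sum hL2).trans ?_)
      rw [← mul_sum]
      exact mul_le_mul_of_nonneg_left (sum_tail hε hd ha1 _ fun v hv => (hv1 v hv).2.2)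
        (by positivity)
    have h2 : ‖∑ v ∈ VS K a b with (nm v).Prime, tr v * zz f s v‖ ≤ V := by
      rw [deg_one_sum N₀ tr f s s₀ ha ha1]
      exact hV
    have h3 : ‖∑ v ∈ VS K a b with ¬ (nm v).Prime, tr v * zz f s v‖ ≤
        C ^ 2 * ((a : ℝ) ^ (-(ε / 2)) * (d * ZZ ε)) := by
      have h4 : ∀ v ∈ (VS K a b).filter (fun v => ¬ (nm v).Prime), ‖tr v * zz f s v‖ ≤
          C ^ 2 * (nm v : ℝ) ^ (-(1 / 2 + ε)) := by
        intro v hv
        refine (hloc v (mem_filter.1 hv).1).1.trans ?_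
        exact mul_le_mul_of_nonneg_right (by nlinarith) (by positivity)
      refine (norm_sum_le _ _).trans ((sum_le_sum h4).trans ?_)
      rw [← mul_sum]
      exact mul_le_mul_of_nonneg_left (sum_tail2 hε hd ha1 _
        (fun v hv => (hv1 v (mem_filter.1 hv).1).2.2) fun v hv => (mem_filter.1 hv).2) (by positivity)
    refine (norm_add_le _ _).trans ((add_le_add h1 (norm_add_le _ _)).trans ?_)
    linarith
  refine (Complex.norm_exp_sub_one_le (hsum.trans hsm)).trans ?_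
  linarith

end

end Pool.Agent.Q28.LS
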