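import Pool.Agent.Q28.LS.Euler

/-! Truncated Euler products for almost all members of a family: the general theorem -/

set_option autoImplicit false

open Finset NumberField IsDedekindDomain Filter Topology
open Pool.Agent.H921R2.TatePole (nm two_le_nm)

namespace Pool.Agent.Q28.LS

/-- the part `x < Nv ≤ y` of the Euler product -/
noncomputable def win {K : Type} [Field K] [NumberField K]
    (den : HeightOneSpectrum (𝓞 K) → ℂ → ℂ) (f : ℕ → ℂ) (x y : ℝ) (s : ℂ) : ℂ :=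
  ∏ v ∈ VS K (⌊x⌋₊ + 1) (⌊y⌋₊ + 1), (den v (zz f s v))⁻¹

open scoped Classical in
theorem gen (ε A : ℝ) (hε : 0 < ε) (hA0 : 0 < A) (hA : 1 < 2 * ε * A) : ∃ δ : ℝ, 0 < δ ∧
    ∀ (C : ℝ) (d N₀ h : ℕ), 1 ≤ C → ∃ M₀ : ℕ, ∀ M : ℕ, M₀ ≤ M →
      ∀ (ι : Type) (S : Finset ι) (f : ι → ℕ → ℂ), (∀ i ∈ S, CM (f i)) →
      (∀ a : ℕ → ℂ, ∑ i ∈ S, ‖∑ n ∈ Icc 1 (2 * M), a n * f i n‖ ^ 2 ≤
        (C * (1 + Real.log M) ^ h * M) * ∑ n ∈ Icc 1 (2 * M), ‖a n‖ ^ 2) →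
      ∀ (K : Type) [Field K] [NumberField K], Module.finrank ℚ K ≤ d →
      ∀ (θ : ℝ) (den : HeightOneSpectrum (𝓞 K) → ℂ → ℂ) (tr : HeightOneSpectrum (𝓞 K) → ℂ),
        Good C θ N₀ den tr → ∀ t₀ : ℝ,
      ((S.filter fun i => ¬ ∀ x y : ℝ, (Real.log M) ^ A ≤ x → x ≤ y → y ≤ M →
        ∀ s : ℂ, θ + 1 / 2 + ε ≤ s.re → |s.im - t₀| ≤ 1 →
          ‖win den (f i) x y s - 1‖ ≤ x ^ (-δ)).card : ℝ) ≤ (M : ℝ) ^ (1 - δ) := by
  set ε₁ : ℝ := (ε + 1 / (2 * A)) / 2 with hε₁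
  have hA2 : 1 / (2 * A) < ε := by rw [div_lt_iff₀ (by positivity)]; linarith
  have hε₁0 : 0 < ε₁ := by positivity
  have hε₁ε : ε₁ < ε := by rw [hε₁]; linarith
  have hA1 : 1 < 2 * ε₁ * A := by
    have e : 2 * ε₁ * A = (2 * ε * A + 1) / 2 := by rw [hε₁]; field_simp
    rw [e]; linarith
  set κ : ℝ := ε - ε₁ with hκ
  have hκ0 : 0 < κ := by rw [hκ]; linarith
  obtain ⟨δ₁, hδ₁, hmain⟩ := main ε₁ A hε₁0 hA0 hA1
  set δ : ℝ := min δ₁ (ε / 2) / 2 with hδ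
  have hδ0 : 0 < δ := by positivity
  have hδδ₁ : 2 * δ ≤ δ₁ := by rw [hδ]; linarith [min_le_left δ₁ (ε / 2)]
  have hδε : 2 * δ ≤ ε / 2 := by rw [hδ]; linarith [min_le_right δ₁ (ε / 2)]
  refine ⟨δ, hδ0, fun C d N₀ h hC => ?_⟩
  have hC0 : 0 < C := by linarith
  set K₀ : ℝ := 2 * ((2 + 1 / κ) + 6 * C ^ 2 * (d * ZZ ε)) with hK₀
  have hZ : 0 ≤ ZZ ε := ZZ_nonneg ε
  have hK₀1 : 1 ≤ K₀ := by
    have h1 : 0 ≤ 1 / κ := by positivity
    have h2 : 0 ≤ 6 * C ^ 2 * (d * ZZ ε) := by positivity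
    rw [hK₀]; linarith
  obtain ⟨M₁, hM₁⟩ := hmain ((d + 1) * C) h (by positivity)
  have hev := ((ev_last A 1 (N₀ + 1 + 16 * C ^ 2) hA0 one_pos).and
    ((ev_last A δ K₀ hA0 hδ0).and ((eventually_ge_atTop M₁).and (eventually_ge_atTop 2))))
  obtain ⟨M₀, hM₀⟩ := eventually_atTop.1 hev
  refine ⟨M₀, fun M hM ι S f hf hLS K _ _ hd θ den tr hG t₀ => ?_⟩
  obtain ⟨h1, h2, h3, hM2⟩ := hM₀ M hM
  rw [Real.rpow_one] at h1
  have hM1 : (1 : ℝ) ≤ M := by exact_mod_cast (by omega : 1 ≤ M)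
  have hlog : 0 ≤ Real.log M := Real.log_nonneg hM1
  set s₀ : ℂ := ((θ + 1 / 2 + ε₁ : ℝ) : ℂ) + t₀ * Complex.I with hs₀
  have hs₀re : s₀.re = θ + 1 / 2 + ε₁ := by rw [hs₀]; simp
  have hs₀im : s₀.im = t₀ := by rw [hs₀]; simp
  have hLS' : ∀ a : ℕ → ℂ, ∑ i ∈ S, ‖∑ n ∈ Icc 1 (2 * M), a n * f i n‖ ^ 2 ≤
        ((d + 1) * C * (1 + Real.log M) ^ h * M) * ∑ n ∈ Icc 1 (2 * M), ‖a n‖ ^ 2 := by
    intro a
    refine (hLS a).trans (mul_le_mul_of_nonneg_right ?_ (sum_nonneg fun _ _ => sq_nonneg _))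
    refine mul_le_mul_of_nonneg_right (mul_le_mul_of_nonneg_right ?_ (by positivity))
      (by positivity)
    have : (0 : ℝ) ≤ d := Nat.cast_nonneg _
    nlinarith
  have hc : ∀ p : ℕ, p.Prime → ‖ct (K := K) N₀ tr p * (p : ℂ) ^ (-s₀)‖ ≤
      (d + 1) * C * (p : ℝ) ^ (-(1 / 2 + ε₁)) := by
    intro p hp
    have hp0 : (0 : ℝ) < p := by exact_mod_cast hp.pos
    rw [norm_mul, Complex.norm_natCast_cpow_of_pos hp.pos, Complex.neg_re, hs₀re]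
    calc ‖ct (K := K) N₀ tr p‖ * (p : ℝ) ^ (-(θ + 1 / 2 + ε₁))
        ≤ d * C * (p : ℝ) ^ θ * (p : ℝ) ^ (-(θ + 1 / 2 + ε₁)) :=
          mul_le_mul_of_nonneg_right (ct_le hC0.le hG hd hp) (by positivity)
      _ = d * C * (p : ℝ) ^ (-(1 / 2 + ε₁)) := by
          rw [mul_assoc, ← Real.rpow_add hp0]
          congr 2
          ring
      _ ≤ _ := by
          refine mul_le_mul_of_nonneg_right ?_ (by positivity)
          nlinarith
  have hm := hM₁ M h3 ι S f hf hLS' _ hc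
  have hle : (M : ℝ) ^ (1 - δ₁) ≤ (M : ℝ) ^ (1 - δ) :=
    Real.rpow_le_rpow_of_exponent_le hM1 (by linarith)
  refine le_trans ?_ (hm.trans hle)
  have hsub : (S.filter fun i => ¬ ∀ x y : ℝ, (Real.log M) ^ A ≤ x → x ≤ y → y ≤ M →
        ∀ s : ℂ, θ + 1 / 2 + ε ≤ s.re → |s.im - t₀| ≤ 1 →
          ‖win den (f i) x y s - 1‖ ≤ x ^ (-δ)) ⊆
      (S.filter fun i => ¬ ∀ a b : ℕ, (Real.log M) ^ A ≤ a → a ≤ b → b ≤ M + 1 →
        ‖∑ n ∈ Ico a b, FF (fun p => ct (K := K) N₀ tr p * (p : ℂ) ^ (-s₀)) (f i) n‖ ≤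
          (a : ℝ) ^ (-δ₁)) := by
    intro i hi
    rw [mem_filter] at hi ⊢
    refine ⟨hi.1, fun hgood => hi.2 ?_⟩
    intro x y hx hxy hyM s hs hst
    have hx1 : (N₀ : ℝ) + 1 + 16 * C ^ 2 ≤ x := h1.trans hx
    have hx0 : 0 < x := lt_of_lt_of_le (by positivity) hx1
    set a : ℕ := ⌊x⌋₊ + 1 with ha
    set b : ℕ := ⌊y⌋₊ + 1 with hb
    have hxa : x ≤ a := by rw [ha]; push_cast; exact (Nat.lt_floor_add_one x).le
    have hab : a ≤ b := by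
      have := Nat.floor_le_floor hxy
      omega
    have hbM : b ≤ M + 1 := by
      have : ⌊y⌋₊ ≤ M := Nat.floor_le_of_le hyM
      omega
    have ha0 : (0 : ℝ) < a := hx0.trans_le hxa
    have ha1 : 1 ≤ a := by omega
    have haN : N₀ ≤ a := by
      have h4 : (N₀ : ℝ) ≤ a := by
        have : 0 ≤ 16 * C ^ 2 := by positivity
        linarith
      exact_mod_cast h4
    have haC : 16 * C ^ 2 ≤ (a : ℝ) := by
      have : (0 : ℝ) ≤ N₀ := Nat.cast_nonneg _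
      linarith
    have hre : κ ≤ (s - s₀).re := by
      rw [Complex.sub_re, hs₀re, hκ]; linarith
    have hre0 : 0 < (s - s₀).re := hκ0.trans_le hre
    have hab1 := abel_bound (FF (fun p => ct (K := K) N₀ tr p * (p : ℂ) ^ (-s₀)) (f i)) ha1 hab
      (V := (a : ℝ) ^ (-δ₁))
      (fun b' hb1 hb2 => hgood a b' (hx.trans hxa) hb1 (by omega)) hre0
    have hratio : 1 + ‖s - s₀‖ / (s - s₀).re ≤ 2 + 1 / κ := by
      have h4 : ‖s - s₀‖ ≤ (s - s₀).re + 1 := by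
        refine (Complex.norm_le_abs_re_add_abs_im _).trans ?_
        rw [abs_of_pos hre0, Complex.sub_im, hs₀im]
        linarith
      have h5 : ‖s - s₀‖ / (s - s₀).re ≤ 1 + 1 / (s - s₀).re := by
        rw [div_le_iff₀ hre0, add_mul, one_mul, one_div_mul_cancel hre0.ne']
        exact h4
      have h6 : 1 / (s - s₀).re ≤ 1 / κ := one_div_le_one_div_of_le hκ0 hre
      linarith
    have hV := hab1.trans (mul_le_mul_of_nonneg_left hratio (by positivity :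
      (0 : ℝ) ≤ (a : ℝ) ^ (-δ₁)))
    -- the size
    have ha1' : (1 : ℝ) ≤ a := by exact_mod_cast ha1
    have hp1 : (a : ℝ) ^ (-δ₁) ≤ (a : ℝ) ^ (-(2 * δ)) :=
      Real.rpow_le_rpow_of_exponent_le ha1' (by linarith)
    have hp2 : (a : ℝ) ^ (-(ε / 2)) ≤ (a : ℝ) ^ (-(2 * δ)) :=
      Real.rpow_le_rpow_of_exponent_le ha1' (by linarith)
    have hκ1 : 0 ≤ 2 + 1 / κ := by positivity
    have hCd : 0 ≤ 6 * C ^ 2 * (d * ZZ ε) := by positivity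
    have htot : 2 * ((a : ℝ) ^ (-δ₁) * (2 + 1 / κ) +
        6 * C ^ 2 * (d * ZZ ε) * (a : ℝ) ^ (-(ε / 2))) ≤ (a : ℝ) ^ (-δ) := by
      have h4 : K₀ ≤ (a : ℝ) ^ δ := h2.trans (Real.rpow_le_rpow (by positivity) (hx.trans hxa) hδ0.le)
      calc 2 * ((a : ℝ) ^ (-δ₁) * (2 + 1 / κ) + 6 * C ^ 2 * (d * ZZ ε) * (a : ℝ) ^ (-(ε / 2)))
          ≤ 2 * ((a : ℝ) ^ (-(2 * δ)) * (2 + 1 / κ) +
              6 * C ^ 2 * (d * ZZ ε) * (a : ℝ) ^ (-(2 * δ))) := by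
            have h5 := mul_le_mul_of_nonneg_right hp1 hκ1
            have h6 := mul_le_mul_of_nonneg_left hp2 hCd
            linarith
        _ = K₀ * (a : ℝ) ^ (-(2 * δ)) := by rw [hK₀]; ring
        _ ≤ (a : ℝ) ^ δ * (a : ℝ) ^ (-(2 * δ)) := mul_le_mul_of_nonneg_right h4 (by positivity)
        _ = (a : ℝ) ^ (-δ) := by
            rw [← Real.rpow_add ha0]
            congr 1
            ring
    have hδa : (a : ℝ) ^ (-δ) ≤ 1 := Real.rpow_le_one_of_one_le_of_nonpos ha1' (by linarith)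
    have hfin := prod_close hC hG (hf i hi.1) hε hs hd haN ha1 haC s₀ hV (by linarith)
    calc ‖win den (f i) x y s - 1‖ ≤ _ := hfin
      _ ≤ (a : ℝ) ^ (-δ) := htot
      _ ≤ x ^ (-δ) := Real.rpow_le_rpow_of_nonpos hx0 hxa (by linarith)
  exact_mod_cast card_le_card hsub

end Pool.Agent.Q28.LS
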