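import Pool.Agent.Q28.LS.Gen
import Pool.Agent.H31R2.DH.MVd

/-! The family of the heights of one Euler product -/

set_option autoImplicit false

open Finset NumberField IsDedekindDomain Filter Topology
open Pool.Agent.H921R2.TatePole (nm two_le_nm)

namespace Pool.Agent.Q28.LS

/-- the twist by `n ^ (-i m)` -/
noncomputable def ht (c : ℕ → ℂ) (m : ℕ) (n : ℕ) : ℂ := c n * (n : ℂ) ^ (-((m : ℝ) : ℂ) * Complex.I)

lemma norm_pow_le (m n : ℕ) : ‖(n : ℂ) ^ (-((m : ℝ) : ℂ) * Complex.I)‖ ≤ 1 := by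
  rcases Nat.eq_zero_or_pos n with h | h
  · subst h
    rcases Nat.eq_zero_or_pos m with h | h
    · subst h
      simp
    · rw [Nat.cast_zero, Complex.zero_cpow]
      · simp
      · have : (m : ℂ) ≠ 0 := by exact_mod_cast h.ne'
        simp [this]
  · rw [Complex.norm_natCast_cpow_of_pos h]
    simp

lemma ht_CM {c : ℕ → ℂ} (hc : CM c) (m : ℕ) : CM (ht c m) where
  one := by unfold ht; rw [hc.one]; simp
  mul a b ha hb := by
    unfold ht
    rw [hc.mul a b ha hb]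
    have h1 : ((a * b : ℕ) : ℂ) ^ (-((m : ℝ) : ℂ) * Complex.I) =
        (a : ℂ) ^ (-((m : ℝ) : ℂ) * Complex.I) * (b : ℂ) ^ (-((m : ℝ) : ℂ) * Complex.I) := by
      push_cast
      exact Complex.natCast_mul_natCast_cpow a b _
    rw [h1]
    ring
  bd n := by
    unfold ht
    rw [norm_mul]
    exact mul_le_one₀ (hc.bd n) (norm_nonneg _) (norm_pow_le m n)

lemma ht_LS {c : ℕ → ℂ} (hc : CM c) {T : ℕ} (hT : 1 ≤ T) (a : ℕ → ℂ) :
    ∑ m ∈ range T, ‖∑ n ∈ Icc 1 (2 * T), a n * ht c m n‖ ^ 2 ≤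
      (99 * (1 + Real.log T) ^ 3 * T) * ∑ n ∈ Icc 1 (2 * T), ‖a n‖ ^ 2 := by
  have h1 := DH31.discrete_mv (fun n => a n * c n) (2 * T) T (range T) (Subset.refl _)
    (fun m => (m : ℝ)) (fun m _ => ⟨le_rfl, by linarith⟩)
  have h2 : ∑ m ∈ range T, ‖∑ n ∈ Icc 1 (2 * T), a n * ht c m n‖ ^ 2 =
      ∑ m ∈ range T, ‖DH31.dp (fun n => a n * c n) (2 * T) (m : ℝ)‖ ^ 2 := by
    refine sum_congr rfl fun m _ => ?_
    unfold DH31.dp ht
    congr 2
    exact sum_congr rfl fun n _ => by ring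
  rw [h2]
  refine h1.trans ?_
  have h3 : ∑ n ∈ Icc 1 (2 * T), ‖a n * c n‖ ^ 2 ≤ ∑ n ∈ Icc 1 (2 * T), ‖a n‖ ^ 2 := by
    refine sum_le_sum fun n _ => ?_
    rw [norm_mul]
    exact pow_le_pow_left₀ (by positivity) (mul_le_of_le_one_right (norm_nonneg _) (hc.bd n)) 2
  have hT1 : (1 : ℝ) ≤ T := by exact_mod_cast hT
  have hlog : 0 ≤ Real.log T := Real.log_nonneg hT1
  have e1 : Real.log ((2 * T : ℕ) : ℝ) = Real.log 2 + Real.log T := by
    push_cast
    rw [Real.log_mul (by norm_num) (by linarith)]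
  have hl2 := Real.log_two_lt_d9
  have hl2' := Real.log_two_gt_d9
  rw [e1]
  set L : ℝ := 1 + Real.log T with hL
  have hL1 : 1 ≤ L := by linarith
  have h4 : 2 + (Real.log 2 + Real.log T) ^ 2 ≤ 3 * L ^ 2 := by
    have h5 : Real.log 2 + Real.log T ≤ L := by linarith
    have h6 : 0 ≤ Real.log 2 + Real.log T := by linarith
    have h7 := pow_le_pow_left₀ h6 h5 2
    have h8 : 1 ≤ L ^ 2 := one_le_pow₀ hL1
    linarith
  have h5 : (T : ℝ) + 8 * ((2 * T : ℕ) : ℝ) * (1 + (Real.log 2 + Real.log T)) ≤ 33 * L * T := by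
    push_cast
    have h6 : 1 + (Real.log 2 + Real.log T) ≤ 2 * L := by linarith
    nlinarith
  have h6 : 0 ≤ (T : ℝ) + 8 * ((2 * T : ℕ) : ℝ) * (1 + (Real.log 2 + Real.log T)) := by
    have : 0 ≤ 1 + (Real.log 2 + Real.log T) := by linarith
    positivity
  refine mul_le_mul ?_ h3 (sum_nonneg fun _ _ => sq_nonneg _) (by positivity)
  calc (2 + (Real.log 2 + Real.log T) ^ 2) *
        ((T : ℝ) + 8 * ((2 * T : ℕ) : ℝ) * (1 + (Real.log 2 + Real.log T)))
      ≤ (3 * L ^ 2) * (33 * L * T) := mul_le_mul h4 h5 h6 (by positivity)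
    _ = _ := by ring

open scoped Classical in
/-- **Almost all heights**: all `m < T` except `T ^ (1 - δ)`. -/
theorem heights (ε A : ℝ) (hε : 0 < ε) (hA : 1 < 2 * ε * A) : ∃ δ : ℝ, 0 < δ ∧
    ∀ (C : ℝ) (d N₀ : ℕ), 1 ≤ C → ∃ T₀ : ℕ, ∀ T : ℕ, T₀ ≤ T →
      ∀ c : ℕ → ℂ, CM c →
      ∀ (K : Type) [Field K] [NumberField K], Module.finrank ℚ K ≤ d →
      ∀ (θ : ℝ) (den : HeightOneSpectrum (𝓞 K) → ℂ → ℂ) (tr : HeightOneSpectrum (𝓞 K) → ℂ),
        Good C θ N₀ den tr →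
      (((range T).filter fun m : ℕ => ¬ ∀ x y : ℝ, (Real.log T) ^ A ≤ x → x ≤ y → y ≤ T →
        ∀ s : ℂ, θ + 1 / 2 + ε ≤ s.re → |s.im - m| ≤ 1 →
          ‖win den c x y s - 1‖ ≤ x ^ (-δ)).card : ℝ) ≤ (T : ℝ) ^ (1 - δ) := by
  have hA0 : 0 < A := by
    by_contra h
    rw [not_lt] at h
    nlinarith
  obtain ⟨δ, hδ, hgen⟩ := gen ε A hε hA0 hA
  refine ⟨δ, hδ, fun C d N₀ hC => ?_⟩
  obtain ⟨M₀, hM₀⟩ := hgen (max C 99) d N₀ 3 (hC.trans (le_max_left _ _))
  refine ⟨max M₀ 1, fun T hT c hc K _ _ hd θ den tr hG => ?_⟩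
  have hT1 : 1 ≤ T := (le_max_right _ _).trans hT
  have hG' : Good (max C 99) θ N₀ den tr :=
    ⟨fun v hv => (hG.tr_le v hv).trans (mul_le_mul_of_nonneg_right (le_max_left _ _) (by positivity)),
      fun v hv z hz => (hG.den_le v hv z hz).trans
        (mul_le_mul_of_nonneg_right (le_max_left _ _) (by positivity))⟩
  have hlog : 0 ≤ Real.log T := Real.log_natCast_nonneg _
  have h1 := hM₀ T ((le_max_left _ _).trans hT) _ (range T) (ht c) (fun i _ => ht_CM hc i)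
    (fun a => (ht_LS hc hT1 a).trans (mul_le_mul_of_nonneg_right
      (mul_le_mul_of_nonneg_right (mul_le_mul_of_nonneg_right (le_max_right _ _) (by positivity))
        (Nat.cast_nonneg _)) (sum_nonneg fun _ _ => sq_nonneg _))) K hd θ den tr hG' 0
  refine le_trans ?_ h1
  have hsub : ((range T).filter fun m : ℕ => ¬ ∀ x y : ℝ, (Real.log T) ^ A ≤ x → x ≤ y → y ≤ T →
        ∀ s : ℂ, θ + 1 / 2 + ε ≤ s.re → |s.im - m| ≤ 1 →
          ‖win den c x y s - 1‖ ≤ x ^ (-δ)) ⊆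
      (range T).filter fun m : ℕ => ¬ ∀ x y : ℝ, (Real.log T) ^ A ≤ x → x ≤ y → y ≤ T →
        ∀ s : ℂ, θ + 1 / 2 + ε ≤ s.re → |s.im - 0| ≤ 1 →
          ‖win den (ht c m) x y s - 1‖ ≤ x ^ (-δ) := by
    intro m hm
    rw [mem_filter] at hm ⊢
    refine ⟨hm.1, fun hgood => hm.2 ?_⟩
    intro x y hx hxy hyT s hs hst
    have h2 := hgood x y hx hxy hyT (s - (m : ℝ) * Complex.I) (by simpa using hs)
      (by simpa using hst)
    have h3 : win den (ht c m) x y (s - (m : ℝ) * Complex.I) = win den c x y s := by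
      unfold win
      refine prod_congr rfl fun v _ => ?_
      have h4 : zz (ht c m) (s - (m : ℝ) * Complex.I) v = zz c s v := by
        have hn : (nm v : ℂ) ≠ 0 := by
          have := two_le_nm v
          exact_mod_cast (by omega : nm v ≠ 0)
        unfold zz ht
        rw [mul_assoc, ← Complex.cpow_add _ _ hn]
        congr 2
        ring
      rw [h4]
    rwa [h3] at h2
  exact_mod_cast card_le_card hsub

end Pool.Agent.Q28.LS
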