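import Pool.Agent.Q28.LS.Block

/-! Almost all members of a family: all sums over primes between a power of the logarithm and the size -/

set_option autoImplicit false

open Finset Filter Topology

namespace Pool.Agent.Q28.LS

/-- the numerical inequality for one block -/
lemma ev_block (D A θ : ℝ) (hθ : 0 < θ) :
    ∀ᶠ j : ℕ in atTop, 12 * D ^ 2 * ((j : ℝ) + 1) ^ 2 * 2 ^ (1 / A + θ) * ((2 : ℝ) ^ (-(2 * θ))) ^ j ≤ 1 := by
  have hr0 : (0 : ℝ) < 2 ^ (-(2 * θ)) := by positivity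
  have hr1 : (2 : ℝ) ^ (-(2 * θ)) < 1 := Real.rpow_lt_one_of_one_lt_of_neg (by norm_num) (by linarith)
  have h1 := tendsto_pow_const_mul_const_pow_of_abs_lt_one 2 (r := (2 : ℝ) ^ (-(2 * θ)))
    (by rw [abs_of_pos hr0]; exact hr1)
  have h2 := (h1.comp (tendsto_add_atTop_nat 1)).const_mul
    (12 * D ^ 2 * 2 ^ (1 / A + θ) * ((2 : ℝ) ^ (-(2 * θ)))⁻¹)
  rw [mul_zero] at h2
  filter_upwards [h2.eventually_le_const one_pos] with j hj
  refine le_trans (le_of_eq ?_) hj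
  simp only [Function.comp]
  push_cast
  rw [pow_succ]
  field_simp
  ring

/-- the numerical inequality for the sum over the blocks -/
lemma ev_total (D θ : ℝ) (h : ℕ) (hθ : 0 < θ) :
    ∀ᶠ M : ℕ in atTop, 4 * D * (1 + Real.log M) ^ (h + 2) ≤ (M : ℝ) ^ (θ / 4) := by
  have h1 : Tendsto (fun x : ℝ => (4 * |D|) * (x ^ (h + 2) * Real.exp (-(θ / 4) * x)))
      atTop (𝓝 ((4 * |D|) * 0)) := by
    refine Tendsto.const_mul _ ?_
    have := tendsto_rpow_mul_exp_neg_mul_atTop_nhds_zero ((h + 2 : ℕ) : ℝ) (θ / 4) (by positivity)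
    simpa only [Real.rpow_natCast] using this
  rw [mul_zero] at h1
  have h2 : Tendsto (fun M : ℕ => 1 + Real.log M) atTop atTop :=
    tendsto_atTop_add_const_left _ _ (Real.tendsto_log_atTop.comp tendsto_natCast_atTop_atTop)
  have h3 := (h1.comp h2).const_mul (Real.exp (θ / 4))
  rw [mul_zero] at h3
  filter_upwards [h3.eventually_le_const one_pos, eventually_ge_atTop 1] with M hM hM1
  simp only [Function.comp] at hM
  have hM0 : (0 : ℝ) < M := by exact_mod_cast hM1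
  have hL : 0 ≤ Real.log M := Real.log_nonneg (by exact_mod_cast hM1)
  have e1 : Real.exp (-(θ / 4) * (1 + Real.log M)) = (Real.exp (θ / 4))⁻¹ * ((M : ℝ) ^ (θ / 4))⁻¹ := by
    rw [Real.rpow_def_of_pos hM0, ← Real.exp_neg, ← Real.exp_neg, ← Real.exp_add]
    congr 1
    ring
  rw [e1] at hM
  have hp : 0 < (M : ℝ) ^ (θ / 4) := by positivity
  have he : 0 < Real.exp (θ / 4) := Real.exp_pos _
  have h4 : 4 * |D| * (1 + Real.log M) ^ (h + 2) * ((M : ℝ) ^ (θ / 4))⁻¹ ≤ 1 := by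
    refine le_trans (le_of_eq ?_) hM
    field_simp
  rw [← div_eq_mul_inv, div_le_one hp] at h4
  refine le_trans ?_ h4
  have : D ≤ |D| := le_abs_self D
  have h5 : 0 ≤ (1 + Real.log M) ^ (h + 2) := by positivity
  nlinarith


open scoped Classical in
/-- the bad indices for one block -/
noncomputable def bad {ι : Type} (s : Finset ι) (f : ι → ℕ → ℂ) (c : ℕ → ℂ) (θ : ℝ) (j : ℕ) : Finset ι :=
  s.filter fun i => ∃ a b : ℕ, 2 ^ j ≤ a ∧ a ≤ b ∧ b ≤ 2 ^ (j + 1) ∧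
    ((2 : ℝ) ^ (-θ)) ^ j < ‖∑ n ∈ Ico a b, FF c (f i) n‖

lemma bad_card {ι : Type} (s : Finset ι) (f : ι → ℕ → ℂ) (hf : ∀ i ∈ s, CM (f i)) (c : ℕ → ℂ)
    {ε A θ D R : ℝ} (hε : 0 < ε) (hA0 : 0 < A) (hθ : 5 * θ = 2 * ε - 1 / A) (hθ0 : 0 < θ)
    (hR : 0 ≤ R) {M : ℕ} (hM : 2 ≤ M)
    (hLS : ∀ a : ℕ → ℂ, ∑ i ∈ s, ‖∑ n ∈ Icc 1 (2 * M), a n * f i n‖ ^ 2 ≤
      R * ∑ n ∈ Icc 1 (2 * M), ‖a n‖ ^ 2)
    (hc : ∀ p : ℕ, p.Prime → ‖c p‖ ≤ D * (p : ℝ) ^ (-(1 / 2 + ε))) (j : ℕ) (hj : 2 ^ j ≤ M)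
    (hjA : (Real.log M) ^ A ≤ 2 ^ (j + 1))
    (hev : 12 * D ^ 2 * ((j : ℝ) + 1) ^ 2 * 2 ^ (1 / A + θ) * ((2 : ℝ) ^ (-(2 * θ))) ^ j ≤ 1) :
    ((bad s f c θ j).card : ℝ) ≤ (j + 1) * (R * (M : ℝ) ^ (-(θ / 2))) := by
  classical
  set y : ℝ := (2 : ℝ) ^ j with hy
  have hy0 : 0 < y := by positivity
  have hM0 : (0 : ℝ) < M := by exact_mod_cast (by omega : 0 < M)
  have hM2 : (2 : ℝ) ≤ M := by exact_mod_cast hM
  set k : ℕ := Nat.log (2 ^ (j + 1)) (2 * M) with hk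
  have hb1 : 1 < 2 ^ (j + 1) := Nat.one_lt_two_pow (by omega)
  have hb2 : 2 ^ (j + 1) ≤ 2 * M := by rw [pow_succ]; omega
  have hk1 : 1 ≤ k := Nat.log_pos hb1 hb2
  have hpow : (2 ^ (j + 1)) ^ k ≤ 2 * M := Nat.pow_log_le_self _ (by omega)
  have hlt : 2 * M < (2 ^ (j + 1)) ^ (k + 1) := Nat.lt_pow_succ_log_self hb1 _
  have hrj : ((2 : ℝ) ^ (-θ)) ^ j = y ^ (-θ) := by
    rw [hy, ← Real.rpow_natCast, ← Real.rpow_natCast, ← Real.rpow_mul (by norm_num),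
      ← Real.rpow_mul (by norm_num), mul_comm]
  have hr2j : ((2 : ℝ) ^ (-(2 * θ))) ^ j = y ^ (-(2 * θ)) := by
    rw [hy, ← Real.rpow_natCast, ← Real.rpow_natCast, ← Real.rpow_mul (by norm_num),
      ← Real.rpow_mul (by norm_num), mul_comm]
  have hj1 : (0 : ℝ) < (j : ℝ) + 1 := by positivity
  set B : ℝ := y ^ (-θ) / (2 * (j + 1)) with hB
  have hyθ : 0 < y ^ (-θ) := Real.rpow_pos_of_pos hy0 _
  have hB0 : 0 < B := by positivity
  have hBe : 2 * ((j : ℝ) + 1) * B = y ^ (-θ) := by rw [hB]; field_simp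
  set E : ℝ := D ^ 2 * y ^ (-(1 + 2 * ε)) with hE
  have hE0 : 0 ≤ E := by positivity
  have hcE : ∀ p : ℕ, 2 ^ j ≤ p → p < 2 ^ (j + 1) → p.Prime → ‖c p‖ ^ 2 ≤ E := by
    intro p hp1 _ hp
    have hpy : y ≤ (p : ℝ) := by rw [hy]; exact_mod_cast hp1
    have hp0 : (0 : ℝ) < p := lt_of_lt_of_le hy0 hpy
    refine (pow_le_pow_left₀ (norm_nonneg _) (hc p hp) 2).trans ?_
    rw [mul_pow, hE]
    refine mul_le_mul_of_nonneg_left ?_ (sq_nonneg _)
    rw [← Real.rpow_natCast, ← Real.rpow_mul hp0.le]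
    have e : -(1 / 2 + ε) * ((2 : ℕ) : ℝ) = -(1 + 2 * ε) := by push_cast; ring
    rw [e]
    exact Real.rpow_le_rpow_of_nonpos hy0 hpy (by linarith)
  have h1 := block s f hf (2 * M) R hR hLS c j k hk1 hpow hE0 hB0 hcE
  have h2 : ((bad s f c θ j).card : ℝ) ≤
      (j + 1) * (R * (k.factorial * (2 ^ j * E / B ^ 2) ^ k)) := by
    refine le_trans (le_of_eq ?_) h1
    unfold bad
    rw [hBe, hrj]
  refine h2.trans (mul_le_mul_of_nonneg_left (mul_le_mul_of_nonneg_left ?_ hR) hj1.le)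
  -- the bound for `k`
  have hlogM : 0 < Real.log M := Real.log_pos (by linarith)
  have hkl : (k : ℝ) ≤ 3 * Real.log M := by
    have h3 : ((2 ^ (j + 1) : ℕ) : ℝ) ^ k ≤ 2 * M := by exact_mod_cast hpow
    have h4 := Real.log_le_log (by positivity) h3
    rw [Real.log_pow] at h4
    push_cast at h4
    rw [Real.log_pow, Real.log_mul (by norm_num) hM0.ne'] at h4
    push_cast at h4
    have h5 : Real.log 2 ≤ Real.log M := Real.log_le_log (by norm_num) hM2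
    have h6 := Real.log_two_gt_d9
    have hk0 : (0 : ℝ) ≤ k := Nat.cast_nonneg _
    have h7 : (k : ℝ) * Real.log 2 ≤ k * ((j + 1) * Real.log 2) := by
      refine mul_le_mul_of_nonneg_left ?_ hk0
      have : (0 : ℝ) ≤ j := Nat.cast_nonneg _
      nlinarith
    nlinarith
  have hlA : Real.log M ≤ (2 * y) ^ (1 / A) := by
    have h3 : (Real.log M) ^ A ≤ 2 * y := by
      rw [hy]
      refine hjA.trans (le_of_eq ?_)
      rw [pow_succ]
      ring
    have h4 := Real.rpow_le_rpow (by positivity) h3 (by positivity : (0 : ℝ) ≤ 1 / A)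
    rw [← Real.rpow_mul hlogM.le, mul_one_div_cancel hA0.ne', Real.rpow_one] at h4
    exact h4
  -- `W`
  have hW : 2 ^ j * E / B ^ 2 = 4 * D ^ 2 * ((j : ℝ) + 1) ^ 2 * y ^ (2 * θ - 2 * ε) := by
    have e1 : y ^ (2 * θ - 2 * ε) = y * y ^ (-(1 + 2 * ε)) / (y ^ (-θ)) ^ 2 := by
      rw [← Real.rpow_natCast (y ^ (-θ)) 2, ← Real.rpow_mul hy0.le]
      nth_rewrite 2 [← Real.rpow_one y]
      rw [← Real.rpow_add hy0, ← Real.rpow_sub hy0]
      congr 1
      push_cast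
      ring
    rw [e1, hE, hB, ← hy]
    field_simp
    ring
  have hW0 : 0 ≤ 4 * D ^ 2 * ((j : ℝ) + 1) ^ 2 * y ^ (2 * θ - 2 * ε) := by positivity
  rw [hW]
  have hkW : (k : ℝ) * (4 * D ^ 2 * ((j : ℝ) + 1) ^ 2 * y ^ (2 * θ - 2 * ε)) ≤ (2 * y) ^ (-θ) := by
    calc (k : ℝ) * (4 * D ^ 2 * ((j : ℝ) + 1) ^ 2 * y ^ (2 * θ - 2 * ε))
        ≤ (3 * (2 * y) ^ (1 / A)) * (4 * D ^ 2 * ((j : ℝ) + 1) ^ 2 * y ^ (2 * θ - 2 * ε)) :=
          mul_le_mul_of_nonneg_right (hkl.trans (by linarith)) hW0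
      _ = (12 * D ^ 2 * ((j : ℝ) + 1) ^ 2 * 2 ^ (1 / A + θ) * ((2 : ℝ) ^ (-(2 * θ))) ^ j) *
            (2 * y) ^ (-θ) := by
          rw [hr2j, Real.mul_rpow (by norm_num) hy0.le, Real.mul_rpow (by norm_num) hy0.le,
            Real.rpow_add (by norm_num), Real.rpow_neg (by norm_num : (0 : ℝ) ≤ 2) θ]
          have e2 : y ^ (1 / A) * y ^ (2 * θ - 2 * ε) = y ^ (-(2 * θ)) * y ^ (-θ) := by
            rw [← Real.rpow_add hy0, ← Real.rpow_add hy0]
            congr 1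
            linarith
          have e3 : (2 : ℝ) ^ θ ≠ 0 := (Real.rpow_pos_of_pos (by norm_num) _).ne'
          calc _ = 12 * D ^ 2 * ((j : ℝ) + 1) ^ 2 * 2 ^ (1 / A) *
                (y ^ (1 / A) * y ^ (2 * θ - 2 * ε)) := by ring
            _ = _ := by
              rw [e2]
              field_simp
      _ ≤ 1 * (2 * y) ^ (-θ) := mul_le_mul_of_nonneg_right hev (by positivity)
      _ = _ := one_mul _
  have hfac : ((k.factorial : ℕ) : ℝ) ≤ (k : ℝ) ^ k := by exact_mod_cast Nat.factorial_le_pow k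
  calc ((k.factorial : ℕ) : ℝ) * (4 * D ^ 2 * ((j : ℝ) + 1) ^ 2 * y ^ (2 * θ - 2 * ε)) ^ k
      ≤ (k : ℝ) ^ k * (4 * D ^ 2 * ((j : ℝ) + 1) ^ 2 * y ^ (2 * θ - 2 * ε)) ^ k :=
        mul_le_mul_of_nonneg_right hfac (by positivity)
    _ = ((k : ℝ) * (4 * D ^ 2 * ((j : ℝ) + 1) ^ 2 * y ^ (2 * θ - 2 * ε))) ^ k :=
        (mul_pow _ _ _).symm
    _ ≤ ((2 * y) ^ (-θ)) ^ k := pow_le_pow_left₀ (by positivity) hkW k
    _ = ((2 * y) ^ k) ^ (-θ) := by
        rw [← Real.rpow_natCast ((2 * y) ^ (-θ)) k, ← Real.rpow_mul (by positivity),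
          ← Real.rpow_natCast (2 * y) k, ← Real.rpow_mul (by positivity), mul_comm (-θ) (k : ℝ)]
    _ ≤ ((M : ℝ) ^ (1 / 2 : ℝ)) ^ (-θ) := by
        refine Real.rpow_le_rpow_of_nonpos (by positivity) ?_ (by linarith)
        have h3 : (M : ℝ) ≤ ((2 * y) ^ k) ^ 2 := by
          have h4 : (2 * M : ℝ) < (2 * y) ^ (k + 1) := by
            have e : (2 * y : ℝ) = ((2 ^ (j + 1) : ℕ) : ℝ) := by
              rw [hy]; push_cast; rw [pow_succ]; ring
            rw [e]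
            exact_mod_cast hlt
          have h5 : (2 * y) ^ (k + 1) ≤ ((2 * y) ^ k) ^ 2 := by
            rw [← pow_mul]
            refine pow_le_pow_right₀ ?_ (by omega)
            have : (1 : ℝ) ≤ y := one_le_pow₀ (by norm_num)
            linarith
          linarith
        rw [← Real.sqrt_eq_rpow]
        exact Real.sqrt_le_iff.2 ⟨by positivity, h3⟩
    _ = (M : ℝ) ^ (-(θ / 2)) := by
        rw [← Real.rpow_mul hM0.le]
        congr 1
        ring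


lemma ev_last (A θ C : ℝ) (hA : 0 < A) (hθ : 0 < θ) :
    ∀ᶠ M : ℕ in atTop, C ≤ ((Real.log M) ^ A) ^ θ := by
  have h1 : Tendsto (fun M : ℕ => ((Real.log M) ^ A) ^ θ) atTop atTop :=
    (tendsto_rpow_atTop hθ).comp ((tendsto_rpow_atTop hA).comp
      (Real.tendsto_log_atTop.comp tendsto_natCast_atTop_atTop))
  exact h1.eventually_ge_atTop C

open scoped Classical in
/-- **Almost all members of a family satisfying a large sieve inequality**: the sums over the primes of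
all intervals between a power of the logarithm and the size of the family are small. -/
theorem main (ε A : ℝ) (hε : 0 < ε) (hA0 : 0 < A) (hA : 1 < 2 * ε * A) : ∃ δ : ℝ, 0 < δ ∧
    ∀ (D : ℝ) (h : ℕ), 0 ≤ D → ∃ M₀ : ℕ, ∀ M : ℕ, M₀ ≤ M →
      ∀ (ι : Type) (s : Finset ι) (f : ι → ℕ → ℂ), (∀ i ∈ s, CM (f i)) →
      (∀ a : ℕ → ℂ, ∑ i ∈ s, ‖∑ n ∈ Icc 1 (2 * M), a n * f i n‖ ^ 2 ≤
        (D * (1 + Real.log M) ^ h * M) * ∑ n ∈ Icc 1 (2 * M), ‖a n‖ ^ 2) →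
      ∀ c : ℕ → ℂ, (∀ p : ℕ, p.Prime → ‖c p‖ ≤ D * (p : ℝ) ^ (-(1 / 2 + ε))) →
      ((s.filter fun i => ¬ ∀ a b : ℕ, (Real.log M) ^ A ≤ a → a ≤ b → b ≤ M + 1 →
        ‖∑ n ∈ Ico a b, FF c (f i) n‖ ≤ (a : ℝ) ^ (-δ)).card : ℝ) ≤ (M : ℝ) ^ (1 - δ) := by
  set θ : ℝ := (2 * ε - 1 / A) / 5 with hθd
  have hθ : 5 * θ = 2 * ε - 1 / A := by rw [hθd]; ring
  have hθ0 : 0 < θ := by
    have : 1 / A < 2 * ε := by rw [div_lt_iff₀ hA0]; exact hA
    linarith
  set ρ : ℝ := (2 : ℝ) ^ (-θ) with hρd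
  have hρ0 : 0 < ρ := Real.rpow_pos_of_pos (by norm_num) _
  have hρ1 : ρ < 1 := Real.rpow_lt_one_of_one_lt_of_neg (by norm_num) (by linarith)
  refine ⟨θ / 4, by positivity, fun D h hD => ?_⟩
  obtain ⟨j₁, hj₁⟩ := eventually_atTop.1 (ev_block D A θ hθ0)
  have hev := ((ev_total D θ h hθ0).and ((ev_last A (3 * θ / 4) (2 ^ θ / (1 - ρ)) hA0 (by positivity)).and
    ((ev_last A 1 ((2 : ℝ) ^ (j₁ + 1)) hA0 one_pos).and (eventually_ge_atTop 2))))
  obtain ⟨M₀, hM₀⟩ := eventually_atTop.1 hev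
  refine ⟨M₀, fun M hM ι s f hf hLS c hc => ?_⟩
  obtain ⟨h1, h2, h3, hM2⟩ := hM₀ M hM
  rw [Real.rpow_one] at h3
  have hM0 : (0 : ℝ) < M := by exact_mod_cast (by omega : 0 < M)
  have hM1 : (1 : ℝ) ≤ M := by exact_mod_cast (by omega : 1 ≤ M)
  have hlog : 0 ≤ Real.log M := Real.log_nonneg hM1
  set J : ℕ := Nat.log 2 M with hJ
  have hJ1 : 2 ^ J ≤ M := Nat.pow_log_le_self _ (by omega)
  have hJ2 : M < 2 ^ (J + 1) := Nat.lt_pow_succ_log_self (by norm_num) _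
  set R : ℝ := D * (1 + Real.log M) ^ h * M with hR
  have hR0 : 0 ≤ R := by positivity
  -- bad indices
  set T : Finset ℕ := (range (J + 1)).filter fun j => (Real.log M) ^ A ≤ 2 ^ (j + 1) with hT
  have hsub : (s.filter fun i => ¬ ∀ a b : ℕ, (Real.log M) ^ A ≤ a → a ≤ b → b ≤ M + 1 →
        ‖∑ n ∈ Ico a b, FF c (f i) n‖ ≤ (a : ℝ) ^ (-(θ / 4))) ⊆ T.biUnion fun j => bad s f c θ j := by
    intro i hi
    rw [mem_filter] at hi
    obtain ⟨his, hi2⟩ := hi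
    by_contra hcon
    apply hi2
    intro a b haA hab hbM
    have hA1 : (2 : ℝ) ^ (j₁ + 1) ≤ a := h3.trans haA
    have ha0 : (0 : ℝ) < a := lt_of_lt_of_le (by positivity) hA1
    have han : a ≠ 0 := by rintro rfl; simp at ha0
    rcases hab.eq_or_lt with he | hlt
    · rw [he, Ico_self, sum_empty, norm_zero]
      positivity
    set ja : ℕ := Nat.log 2 a with hja
    have hja1 : 2 ^ ja ≤ a := Nat.pow_log_le_self _ han
    have hja2 : a < 2 ^ (ja + 1) := Nat.lt_pow_succ_log_self (by norm_num) _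
    have hjaJ : ja ≤ J := Nat.log_mono_right (by omega)
    have hS := chain (fun a b => ∑ n ∈ Ico a b, FF c (f i) n)
      (fun a b c' h1 h2 => (sum_Ico_consecutive _ h1 h2).symm) hρ0 hρ1 J (J - ja) ja (by omega)
      (fun j hj1 hj2 a' b' ha' hab' hb' => by
        by_contra hcon3
        rw [not_le] at hcon3
        apply hcon
        rw [mem_biUnion]
        refine ⟨j, ?_, ?_⟩
        · rw [hT, mem_filter, mem_range]
          refine ⟨by omega, haA.trans ?_⟩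
          have h4 : a ≤ 2 ^ (j + 1) := hja2.le.trans (Nat.pow_le_pow_right (by norm_num) (by omega))
          exact_mod_cast h4
        · unfold bad
          rw [mem_filter]
          exact ⟨his, a', b', ha', hab', hb', hcon3⟩)
      a b hja1 hja2.le hab (by omega)
    refine hS.trans ?_
    have h5 : ρ ^ ja ≤ 2 ^ θ * (a : ℝ) ^ (-θ) := by
      have h6 : ρ ^ ja = ((2 : ℝ) ^ ja) ^ (-θ) := by
        rw [hρd, ← Real.rpow_natCast ((2 : ℝ) ^ (-θ)) ja, ← Real.rpow_mul (by norm_num),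
          ← Real.rpow_natCast (2 : ℝ) ja, ← Real.rpow_mul (by norm_num), mul_comm]
      have h7 : 2 ^ θ * (a : ℝ) ^ (-θ) = ((a : ℝ) / 2) ^ (-θ) := by
        rw [Real.div_rpow ha0.le (by norm_num), Real.rpow_neg (by norm_num : (0 : ℝ) ≤ 2) θ,
          div_inv_eq_mul, mul_comm]
      rw [h6, h7]
      refine Real.rpow_le_rpow_of_nonpos (by positivity) ?_ (by linarith)
      have h8 : (a : ℝ) < 2 ^ (ja + 1) := by exact_mod_cast hja2
      rw [pow_succ] at h8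
      linarith
    calc ρ ^ ja / (1 - ρ) ≤ 2 ^ θ * (a : ℝ) ^ (-θ) / (1 - ρ) :=
          div_le_div_of_nonneg_right h5 (by linarith)
      _ = 2 ^ θ / (1 - ρ) * (a : ℝ) ^ (-θ) := by ring
      _ ≤ (a : ℝ) ^ (3 * θ / 4) * (a : ℝ) ^ (-θ) := by
          refine mul_le_mul_of_nonneg_right (h2.trans ?_) (by positivity)
          exact Real.rpow_le_rpow (by positivity) haA (by positivity)
      _ = (a : ℝ) ^ (-(θ / 4)) := by
          rw [← Real.rpow_add ha0]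
          congr 1
          ring
  have hcard : ((s.filter fun i => ¬ ∀ a b : ℕ, (Real.log M) ^ A ≤ a → a ≤ b → b ≤ M + 1 →
        ‖∑ n ∈ Ico a b, FF c (f i) n‖ ≤ (a : ℝ) ^ (-(θ / 4))).card : ℝ) ≤
        ∑ j ∈ T, ((bad s f c θ j).card : ℝ) := by
    exact_mod_cast (card_le_card hsub).trans card_biUnion_le
  refine hcard.trans ?_
  have hone : ∀ j ∈ T, ((bad s f c θ j).card : ℝ) ≤ (J + 1) * (R * (M : ℝ) ^ (-(θ / 2))) := by
    intro j hj
    rw [hT, mem_filter, mem_range] at hj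
    have hjM : 2 ^ j ≤ M := (Nat.pow_le_pow_right (by norm_num) (by omega)).trans hJ1
    have hjj : j₁ ≤ j := by
      have h4 : (2 : ℝ) ^ (j₁ + 1) ≤ 2 ^ (j + 1) := h3.trans hj.2
      have h5 := (pow_le_pow_iff_right₀ (by norm_num : (1 : ℝ) < 2)).1 h4
      omega
    refine (bad_card s f hf c hε hA0 hθ hθ0 hR0 hM2 hLS hc j hjM hj.2 (hj₁ j hjj)).trans ?_
    have : (j : ℝ) ≤ J := by exact_mod_cast (by omega : j ≤ J)
    refine mul_le_mul_of_nonneg_right (by linarith) (by positivity)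
  refine (sum_le_sum hone).trans ?_
  rw [sum_const, nsmul_eq_mul]
  have hTc : (T.card : ℝ) ≤ J + 1 := by
    have : T.card ≤ J + 1 := (card_filter_le _ _).trans (by rw [card_range])
    exact_mod_cast this
  have hJl : (J : ℝ) + 1 ≤ 2 * (1 + Real.log M) := by
    have h4 : ((2 ^ J : ℕ) : ℝ) ≤ M := by exact_mod_cast hJ1
    have h5 := Real.log_le_log (by positivity) h4
    push_cast at h5
    rw [Real.log_pow] at h5
    have h6 := Real.log_two_gt_d9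
    have hJ0 : (0 : ℝ) ≤ J := Nat.cast_nonneg _
    nlinarith
  calc (T.card : ℝ) * ((J + 1) * (R * (M : ℝ) ^ (-(θ / 2))))
      ≤ (2 * (1 + Real.log M)) * ((2 * (1 + Real.log M)) * (R * (M : ℝ) ^ (-(θ / 2)))) := by
        refine mul_le_mul (hTc.trans hJl) ?_ (by positivity) (by positivity)
        exact mul_le_mul_of_nonneg_right hJl (by positivity)
    _ = (4 * D * (1 + Real.log M) ^ (h + 2)) * (M * (M : ℝ) ^ (-(θ / 2))) := by
        rw [hR]
        ring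
    _ ≤ (M : ℝ) ^ (θ / 4) * (M * (M : ℝ) ^ (-(θ / 2))) :=
        mul_le_mul_of_nonneg_right h1 (by positivity)
    _ = (M : ℝ) ^ (1 - θ / 4) := by
        nth_rewrite 2 [← Real.rpow_one (M : ℝ)]
        rw [← Real.rpow_add hM0, ← Real.rpow_add hM0]
        congr 1
        ring

end Pool.Agent.Q28.LS
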