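import Mathlib

/-! High moments of prime sums from a large sieve inequality -/

set_option autoImplicit false

open Finset

namespace Pool.Agent.Q28.LS

/-- completely multiplicative, bounded by one -/
structure CM (f : ℕ → ℂ) : Prop where
  one : f 1 = 1
  mul : ∀ m n : ℕ, m ≠ 0 → n ≠ 0 → f (m * n) = f m * f n
  bd : ∀ n : ℕ, ‖f n‖ ≤ 1

lemma CM.prod {f : ℕ → ℂ} (h : CM f) {ι : Type*} (s : Finset ι) (g : ι → ℕ)
    (hg : ∀ i ∈ s, g i ≠ 0) : f (∏ i ∈ s, g i) = ∏ i ∈ s, f (g i) := by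
  classical
  induction s using Finset.induction_on with
  | empty => simp [h.one]
  | insert a s ha ih =>
    rw [prod_insert ha, prod_insert ha, h.mul _ _ (hg a (mem_insert_self ..))
      (prod_ne_zero_iff.2 fun i hi => hg i (mem_insert_of_mem hi)),
      ih fun i hi => hg i (mem_insert_of_mem hi)]

theorem card_le (P : Finset ℕ) (hP : ∀ p ∈ P, p.Prime) (k : ℕ) (f : Fin k → ℕ)
    (hf : ∀ i, (f i).Prime) :
    ((Fintype.piFinset (fun _ : Fin k => P)).filter (fun g => ∏ i, g i = ∏ i, f i)).card ≤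
      k.factorial := by
  have h1 : ∀ g : Fin k → ℕ, (∀ i, (g i).Prime) → ∏ i, g i = ∏ i, f i →
      (List.ofFn g).Perm (List.ofFn f) := by
    intro g hg hgf
    have h2 : (List.ofFn g).Perm (Nat.primeFactorsList (∏ i, f i)) := by
      apply Nat.primeFactorsList_unique
      · rw [List.prod_ofFn, hgf]
      · intro p hp
        rw [List.mem_ofFn] at hp
        obtain ⟨i, rfl⟩ := hp
        exact hg i
    have h3 : (List.ofFn f).Perm (Nat.primeFactorsList (∏ i, f i)) := by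
      apply Nat.primeFactorsList_unique
      · rw [List.prod_ofFn]
      · intro p hp
        rw [List.mem_ofFn] at hp
        obtain ⟨i, rfl⟩ := hp
        exact hf i
    exact h2.trans h3.symm
  calc _ ≤ (List.ofFn f).permutations.toFinset.card := by
        apply Finset.card_le_card_of_injOn (fun g => List.ofFn g)
        · intro g hg
          rw [Finset.mem_coe, Finset.mem_filter, Fintype.mem_piFinset] at hg
          rw [Finset.mem_coe, List.mem_toFinset, List.mem_permutations]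
          exact h1 g (fun i => hP _ (hg.1 i)) hg.2
        · exact List.ofFn_injective.injOn
    _ ≤ (List.ofFn f).permutations.length := List.toFinset_card_le _
    _ = k.factorial := by rw [List.length_permutations, List.length_ofFn]

/-- tuples -/
def tup (P : Finset ℕ) (k : ℕ) : Finset (Fin k → ℕ) := Fintype.piFinset (fun _ => P)

/-- the coefficients of the `k`-th power -/
noncomputable def AA (P : Finset ℕ) (c : ℕ → ℂ) (k n : ℕ) : ℂ :=
  ∑ g ∈ (tup P k).filter (fun g => ∏ i, g i = n), ∏ i, c (g i)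

lemma prod_mem {P : Finset ℕ} (hP : ∀ p ∈ P, p.Prime) {Y k N : ℕ} (hY : ∀ p ∈ P, p ≤ Y)
    (hk : Y ^ k ≤ N) {g : Fin k → ℕ} (hg : g ∈ tup P k) : ∏ i, g i ∈ Icc 1 N := by
  unfold tup at hg
  rw [Fintype.mem_piFinset] at hg
  rw [mem_Icc]
  refine ⟨Nat.one_le_iff_ne_zero.2 (prod_ne_zero_iff.2 fun i _ => (hP _ (hg i)).ne_zero), ?_⟩
  refine (prod_le_prod' fun i _ => hY _ (hg i)).trans ?_
  rw [prod_const, card_univ, Fintype.card_fin]
  exact hk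

lemma pow_eq {P : Finset ℕ} (hP : ∀ p ∈ P, p.Prime) {Y k N : ℕ} (hY : ∀ p ∈ P, p ≤ Y)
    (hk : Y ^ k ≤ N) (c : ℕ → ℂ) {f : ℕ → ℂ} (hf : CM f) :
    (∑ p ∈ P, c p * f p) ^ k = ∑ n ∈ Icc 1 N, AA P c k n * f n := by
  have h1 : (∑ p ∈ P, c p * f p) ^ k = ∏ _i : Fin k, ∑ p ∈ P, c p * f p := by
    rw [prod_const, card_univ, Fintype.card_fin]
  rw [h1, prod_univ_sum]
  have h2 : ∑ g ∈ Fintype.piFinset (fun _ : Fin k => P), ∏ i, c (g i) * f (g i) =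
      ∑ g ∈ tup P k, (∏ i, c (g i)) * f (∏ i, g i) := by
    refine sum_congr rfl fun g hg => ?_
    rw [prod_mul_distrib, hf.prod]
    intro i _
    exact (hP _ ((Fintype.mem_piFinset.1 hg) i)).ne_zero
  rw [h2, ← sum_fiberwise_of_maps_to (g := fun g : Fin k → ℕ => ∏ i, g i) (t := Icc 1 N)
    fun g hg => prod_mem hP hY hk hg]
  refine sum_congr rfl fun n _ => ?_
  unfold AA
  rw [sum_mul]
  refine sum_congr rfl fun g hg => ?_
  rw [(mem_filter.1 hg).2]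

lemma norm_AA {P : Finset ℕ} (hP : ∀ p ∈ P, p.Prime) (c : ℕ → ℂ) (k n : ℕ) :
    ‖AA P c k n‖ ^ 2 ≤ k.factorial *
      ∑ g ∈ (tup P k).filter (fun g => ∏ i, g i = n), ∏ i, ‖c (g i)‖ ^ 2 := by
  have h0 : 0 ≤ ∑ g ∈ (tup P k).filter (fun g => ∏ i, g i = n), ∏ i, ‖c (g i)‖ ^ 2 :=
    sum_nonneg fun g _ => prod_nonneg fun i _ => sq_nonneg _
  have h1 : ‖AA P c k n‖ ≤ ∑ g ∈ (tup P k).filter (fun g => ∏ i, g i = n), ∏ i, ‖c (g i)‖ := by
    unfold AA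
    refine (norm_sum_le _ _).trans (sum_le_sum fun g _ => ?_)
    rw [norm_prod]
  have h2 := pow_le_pow_left₀ (norm_nonneg _) h1 2
  refine h2.trans ((sq_sum_le_card_mul_sum_sq).trans ?_)
  have h3 : ∑ g ∈ (tup P k).filter (fun g => ∏ i, g i = n), (∏ i, ‖c (g i)‖) ^ 2 =
      ∑ g ∈ (tup P k).filter (fun g => ∏ i, g i = n), ∏ i, ‖c (g i)‖ ^ 2 :=
    sum_congr rfl fun g _ => by rw [← prod_pow]
  rw [h3]
  refine mul_le_mul_of_nonneg_right ?_ h0
  rcases ((tup P k).filter (fun g => ∏ i, g i = n)).eq_empty_or_nonempty with h | ⟨g0, hg0⟩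
  · rw [h, card_empty, Nat.cast_zero]
    positivity
  · rw [mem_filter] at hg0
    have hg1 := hg0.1
    unfold tup at hg1
    rw [Fintype.mem_piFinset] at hg1
    have h4 := card_le P hP k g0 (fun i => hP _ (hg1 i))
    rw [hg0.2] at h4
    exact_mod_cast h4

lemma sum_AA {P : Finset ℕ} (hP : ∀ p ∈ P, p.Prime) {Y k N : ℕ} (hY : ∀ p ∈ P, p ≤ Y)
    (hk : Y ^ k ≤ N) (c : ℕ → ℂ) :
    ∑ n ∈ Icc 1 N, ‖AA P c k n‖ ^ 2 ≤ k.factorial * (∑ p ∈ P, ‖c p‖ ^ 2) ^ k := by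
  refine (sum_le_sum fun n _ => norm_AA hP c k n).trans ?_
  rw [← mul_sum]
  have h1 : ∑ n ∈ Icc 1 N, ∑ g ∈ (tup P k).filter (fun g => ∏ i, g i = n), ∏ i, ‖c (g i)‖ ^ 2 =
      (∑ p ∈ P, ‖c p‖ ^ 2) ^ k := by
    rw [sum_fiberwise_of_maps_to (g := fun g : Fin k → ℕ => ∏ i, g i) (t := Icc 1 N)
      fun g hg => prod_mem hP hY hk hg]
    have h2 : (∑ p ∈ P, ‖c p‖ ^ 2) ^ k = ∏ _i : Fin k, ∑ p ∈ P, ‖c p‖ ^ 2 := by
      rw [prod_const, card_univ, Fintype.card_fin]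
    rw [h2, prod_univ_sum]
    rfl
  rw [h1]

section
variable {ι : Type*} (s : Finset ι) (f : ι → ℕ → ℂ) (hf : ∀ i ∈ s, CM (f i)) (N : ℕ) (R : ℝ)
  (hR : 0 ≤ R)
  (hLS : ∀ a : ℕ → ℂ, ∑ i ∈ s, ‖∑ n ∈ Icc 1 N, a n * f i n‖ ^ 2 ≤ R * ∑ n ∈ Icc 1 N, ‖a n‖ ^ 2)
  (P : Finset ℕ) (hP : ∀ p ∈ P, p.Prime) (Y k : ℕ) (hY : ∀ p ∈ P, p ≤ Y) (hk : Y ^ k ≤ N)
  (c : ℕ → ℂ)
include hf hR hLS hP hY hk

/-- the moment of order `2 k` -/
theorem moment : ∑ i ∈ s, (‖∑ p ∈ P, c p * f i p‖ ^ 2) ^ k ≤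
    R * (k.factorial * (∑ p ∈ P, ‖c p‖ ^ 2) ^ k) := by
  have h1 : ∑ i ∈ s, (‖∑ p ∈ P, c p * f i p‖ ^ 2) ^ k =
      ∑ i ∈ s, ‖∑ n ∈ Icc 1 N, AA P c k n * f i n‖ ^ 2 := by
    refine sum_congr rfl fun i hi => ?_
    rw [← pow_eq hP hY hk c (hf i hi), norm_pow]
    ring
  rw [h1]
  exact (hLS _).trans (mul_le_mul_of_nonneg_left (sum_AA hP hY hk c) hR)

/-- the number of large values -/
theorem count {B S : ℝ} (hB : 0 < B) (hS : ∑ p ∈ P, ‖c p‖ ^ 2 ≤ S) :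
    ((s.filter fun i => B < ‖∑ p ∈ P, c p * f i p‖).card : ℝ) ≤
      R * (k.factorial * (S / B ^ 2) ^ k) := by
  have hS0 : 0 ≤ ∑ p ∈ P, ‖c p‖ ^ 2 := sum_nonneg fun _ _ => sq_nonneg _
  have h1 : ((s.filter fun i => B < ‖∑ p ∈ P, c p * f i p‖).card : ℝ) * (B ^ 2) ^ k ≤
      ∑ i ∈ s, (‖∑ p ∈ P, c p * f i p‖ ^ 2) ^ k := by
    rw [← nsmul_eq_mul, ← sum_const]
    refine (sum_le_sum fun i hi => ?_).trans (sum_le_sum_of_subset_of_nonneg (filter_subset _ _)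
      fun i _ _ => by positivity)
    rw [mem_filter] at hi
    exact pow_le_pow_left₀ (by positivity) (pow_le_pow_left₀ hB.le hi.2.le 2) k
  have h2 := h1.trans (moment s f hf N R hR hLS P hP Y k hY hk c)
  have h3 : (0 : ℝ) < (B ^ 2) ^ k := by positivity
  rw [← le_div_iff₀ h3] at h2
  refine h2.trans ?_
  rw [div_pow, mul_div_assoc, mul_div_assoc]
  refine mul_le_mul_of_nonneg_left (mul_le_mul_of_nonneg_left ?_ (Nat.cast_nonneg _)) hR
  exact div_le_div_of_nonneg_right (pow_le_pow_left₀ hS0 hS k) h3.le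

end

end Pool.Agent.Q28.LS
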