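import Pool.Agent.Q28.LS.Gen

/-! Local factors given by matrices, and the rational field -/

set_option autoImplicit false

open Finset NumberField IsDedekindDomain
open Pool.Agent.H921R2.TatePole (nm two_le_nm below nm_eq card_above deg)

namespace Pool.Agent.Q28.LS

lemma mult_bound {u : ℝ} (hu0 : 0 ≤ u) (hu1 : u ≤ 1) (R : Multiset ℂ) :
    (∀ a ∈ R, ‖a‖ ≤ u) → ‖(R.map fun a => 1 - a).prod‖ ≤ 2 ^ R.card ∧
      ‖(R.map fun a => 1 - a).prod - 1‖ ≤ 2 ^ R.card * u ∧
      ‖(R.map fun a => 1 - a).prod - 1 + R.sum‖ ≤ (2 ^ R.card - 1) * u ^ 2 := by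
  induction R using Multiset.induction_on with
  | empty => intro _; simp [hu0]
  | cons a R ih =>
    intro h
    obtain ⟨h1, h2, h3⟩ := ih fun b hb => h b (Multiset.mem_cons_of_mem hb)
    have ha := h a (Multiset.mem_cons_self a R)
    rw [Multiset.map_cons, Multiset.prod_cons, Multiset.sum_cons, Multiset.card_cons]
    set P := (R.map fun a => 1 - a).prod
    have h4 : ‖1 - a‖ ≤ 2 := by
      refine (norm_sub_le _ _).trans ?_
      rw [norm_one]
      linarith
    have hc : (1 : ℝ) ≤ 2 ^ R.card := one_le_pow₀ (by norm_num)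
    refine ⟨?_, ?_, ?_⟩
    · rw [norm_mul, pow_succ]
      nlinarith [norm_nonneg P, norm_nonneg (1 - a)]
    · have e : (1 - a) * P - 1 = (P - 1) - a * P := by ring
      rw [e, pow_succ]
      refine (norm_sub_le _ _).trans ?_
      rw [norm_mul]
      have h5 : ‖a‖ * ‖P‖ ≤ u * 2 ^ R.card := mul_le_mul ha h1 (norm_nonneg _) hu0
      linarith
    · have e : (1 - a) * P - 1 + (a + R.sum) = (P - 1 + R.sum) - a * (P - 1) := by ring
      rw [e, pow_succ]
      refine (norm_sub_le _ _).trans ?_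
      rw [norm_mul]
      have h5 : ‖a‖ * ‖P - 1‖ ≤ u * (2 ^ R.card * u) := mul_le_mul ha h2 (norm_nonneg _) hu0
      nlinarith

lemma det_roots {m : ℕ} (A : Matrix (Fin m) (Fin m) ℂ) (z : ℂ) :
    (1 - z • A).det = ((A.charpoly.roots.map fun μ => z * μ).map fun a => 1 - a).prod ∧
      A.charpoly.roots.card = m := by
  have hs : A.charpoly.Splits := IsAlgClosed.splits _
  have hcard : A.charpoly.roots.card = m := by
    rw [← hs.natDegree_eq_card_roots, Matrix.charpoly_natDegree_eq_dim, Fintype.card_fin]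
  refine ⟨?_, hcard⟩
  by_cases hz : z = 0
  · subst hz
    simp
  · have h1 : (1 - z • A) = z • (Matrix.scalar (Fin m) z⁻¹ - A) := by
      ext i j
      simp only [Matrix.sub_apply, Matrix.smul_apply, Matrix.scalar_apply, smul_eq_mul, mul_sub]
      congr 1
      by_cases hij : i = j
      · subst hij; simp [hz]
      · simp [hij]
    rw [h1, Matrix.det_smul, Fintype.card_fin, ← Matrix.eval_charpoly]
    have h2 : A.charpoly = (A.charpoly.roots.map fun a => Polynomial.X - Polynomial.C a).prod :=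
      (hs.eq_prod_roots_of_monic (Matrix.charpoly_monic A))
    rw [h2, Polynomial.eval_multiset_prod, Multiset.map_map, Multiset.map_map,
      ← h2]
    have h3 : z ^ m = (A.charpoly.roots.map fun _ => z).prod := by
      rw [Multiset.map_const', Multiset.prod_replicate, hcard]
    rw [h3, ← Multiset.prod_map_mul]
    congr 1
    refine Multiset.map_congr rfl fun a _ => ?_
    simp only [Function.comp, Polynomial.eval_sub, Polynomial.eval_X, Polynomial.eval_C]
    field_simp

section
variable {K : Type} [Field K] [NumberField K]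

theorem good_mat {m : ℕ} {θ : ℝ} (A : HeightOneSpectrum (𝓞 K) → Matrix (Fin m) (Fin m) ℂ)
    (hA : ∀ v, ∀ μ ∈ (A v).charpoly.roots, ‖μ‖ ≤ (nm v : ℝ) ^ θ) :
    Good (2 ^ m) θ 0 (fun v z => (1 - z • A v).det) (fun v => (A v).trace) where
  tr_le v _ := by
    rw [Matrix.trace_eq_sum_roots_charpoly]
    have h1 := (det_roots (A v) 0).2
    have h2 : ∀ R : Multiset ℂ, (∀ μ ∈ R, ‖μ‖ ≤ (nm v : ℝ) ^ θ) →
        ‖R.sum‖ ≤ R.card * (nm v : ℝ) ^ θ := by
      intro R
      induction R using Multiset.induction_on with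
      | empty => intro _; simp
      | cons a R ih =>
        intro h
        rw [Multiset.sum_cons, Multiset.card_cons]
        refine (norm_add_le _ _).trans ?_
        have h3 := h a (Multiset.mem_cons_self a R)
        have h4 := ih fun b hb => h b (Multiset.mem_cons_of_mem hb)
        push_cast
        linarith
    refine (h2 _ (hA v)).trans ?_
    rw [h1]
    refine mul_le_mul_of_nonneg_right ?_ (by positivity)
    exact_mod_cast Nat.lt_two_pow_self.le
  den_le v _ z hz := by
    obtain ⟨h1, h2⟩ := det_roots (A v) z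
    have h3 : ∀ a ∈ ((A v).charpoly.roots.map fun μ => z * μ), ‖a‖ ≤ (nm v : ℝ) ^ θ * ‖z‖ := by
      intro a ha
      rw [Multiset.mem_map] at ha
      obtain ⟨μ, hμ, rfl⟩ := ha
      rw [norm_mul, mul_comm]
      exact mul_le_mul_of_nonneg_right (hA v μ hμ) (norm_nonneg _)
    obtain ⟨_, _, h4⟩ := mult_bound (by positivity) hz _ h3
    have h5 : ((A v).charpoly.roots.map fun μ => z * μ).sum = (A v).trace * z := by
      rw [Matrix.trace_eq_sum_roots_charpoly, Multiset.sum_map_mul_left, Multiset.map_id', mul_comm]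
    rw [Multiset.card_map, h2, h5, ← h1] at h4
    refine h4.trans ?_
    exact mul_le_mul_of_nonneg_right (by linarith) (sq_nonneg _)

end

/-! ### the rational field -/

lemma nm_rat (v : HeightOneSpectrum (𝓞 ℚ)) : nm v = (below v : ℕ) := by
  obtain ⟨h1, h2, h3⟩ := nm_eq v
  have h4 : v.asIdeal ∣ Ideal.span {((below v : ℕ) : 𝓞 ℚ)} := by
    rw [Ideal.dvd_iff_le, Ideal.span_singleton_le_iff_mem]
    exact h3
  have h5 := map_dvd Ideal.absNorm h4
  rw [Ideal.absNorm_span_natCast, RingOfIntegers.rank, Module.finrank_self, pow_one] at h5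
  have h6 := Nat.le_of_dvd (below v).2.pos h5
  have h7 : (below v : ℕ) ≤ (below v : ℕ) ^ deg v := Nat.le_self_pow h2.ne' _
  rw [h1]
  change nm v ≤ _ at h6
  rw [h1] at h6
  omega

lemma nm_inj {v u : HeightOneSpectrum (𝓞 ℚ)} (h : nm v = nm u) : v = u := by
  classical
  by_contra hne
  rw [nm_rat, nm_rat] at h
  have h1 := card_above (below v) {v, u} (fun w hw => by
    rw [mem_insert, mem_singleton] at hw
    rcases hw with rfl | rfl
    · rfl
    · exact (Subtype.ext h).symm)
  rw [card_pair hne, Module.finrank_self] at h1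
  omega

lemma nm_surj {p : ℕ} (hp : p.Prime) : ∃ v : HeightOneSpectrum (𝓞 ℚ), nm v = p := by
  have h0 : Ideal.span {((p : ℕ) : 𝓞 ℚ)} ≠ ⊤ := by
    intro h
    have h1 := congrArg Ideal.absNorm h
    rw [Ideal.absNorm_span_natCast, RingOfIntegers.rank, Module.finrank_self, pow_one,
      Ideal.absNorm_top] at h1
    exact hp.one_lt.ne' h1
  obtain ⟨P, hP, hle⟩ := Ideal.exists_le_maximal _ h0
  have hmem : ((p : ℕ) : 𝓞 ℚ) ∈ P := hle (Ideal.mem_span_singleton_self _)
  have hne : P ≠ ⊥ := by
    rintro rfl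
    rw [Ideal.mem_bot] at hmem
    exact hp.ne_zero (by exact_mod_cast hmem)
  let v : HeightOneSpectrum (𝓞 ℚ) := ⟨P, hP.isPrime, hne⟩
  refine ⟨v, ?_⟩
  have h4 : v.asIdeal ∣ Ideal.span {((p : ℕ) : 𝓞 ℚ)} := by
    rw [Ideal.dvd_iff_le, Ideal.span_singleton_le_iff_mem]
    exact hmem
  have h5 := map_dvd Ideal.absNorm h4
  rw [Ideal.absNorm_span_natCast, RingOfIntegers.rank, Module.finrank_self, pow_one] at h5
  rcases (Nat.dvd_prime hp).1 h5 with h6 | h6
  · have := two_le_nm v
    unfold nm at this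
    omega
  · exact h6

/-- products over the primes of the rational field -/
lemma prod_rat (a b : ℕ) (g : ℕ → ℂ) :
    ∏ v ∈ VS ℚ a b, g (nm v) = ∏ p ∈ (Ico a b).filter Nat.Prime, g p := by
  refine prod_bij (fun v _ => nm v) ?_ ?_ ?_ ?_
  · intro v hv
    rw [mem_VS] at hv
    rw [mem_filter, mem_Ico]
    exact ⟨hv, by rw [nm_rat]; exact (below v).2⟩
  · intro v _ u _ h
    exact nm_inj h
  · intro p hp
    rw [mem_filter, mem_Ico] at hp
    obtain ⟨v, hv⟩ := nm_surj hp.2
    exact ⟨v, mem_VS.2 (by omega), hv⟩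
  · intro v _
    rfl

end Pool.Agent.Q28.LS
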